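import Mathlib

set_option autoImplicit false

/-!
Carnot groups in coordinates and first jet groups: definitions and the group structure.
-/

namespace Pool.Agent.H41.CJ

open Set MeasureTheory
open scoped ENNReal NNReal Pointwise commutatorElement ContDiff

section Defs
variable {E : Type} [NormedAddCommGroup E] [NormedSpace ℝ E] [Group E]

/-- The left-invariant vector field with value `v` at the identity. -/
noncomputable def leftField (v : E) (g : E) : E := fderiv ℝ (fun h => g * h) 1 v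

/-- The Lie bracket on the tangent space at the identity. -/
noncomputable def bracket (v w : E) : E := VectorField.lieBracket ℝ (leftField v) (leftField w) 1

/-- The Carnot distance: infimum of the lengths of absolutely continuous curves tangent almost
everywhere to the left-invariant distribution given by `W`. -/
noncomputable def ccDist (W : Submodule ℝ E) (x y : E) : ℝ≥0∞ :=
  ⨅ (γ : ℝ → E) (u : ℝ → W) (_ : γ 0 = x) (_ : γ 1 = y)
    (_ : AbsolutelyContinuousOnInterval γ 0 1)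
    (_ : ∀ᵐ s, s ∈ Icc (0 : ℝ) 1 → HasDerivAt γ (leftField (u s : E) (γ s)) s),
    ∫⁻ s in Icc (0 : ℝ) 1, ‖u s‖ₑ

/-- `E` with its group law is a Carnot group of step `r` with the layers `V 1, …, V r`; `π` is its
abelianization. -/
structure IsCarnot (V : ℕ → Submodule ℝ E) (π : E →L[ℝ] V 1) (r : ℕ) : Prop where
  smooth_mul : ContDiff ℝ ∞ (fun p : E × E => p.1 * p.2)
  smooth_inv : ContDiff ℝ ∞ (fun g : E => g⁻¹)
  indep : iSupIndep V
  top : ⨆ j, V j = ⊤
  zero : V 0 = ⊥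
  pos : 1 ≤ r
  last : V r ≠ ⊥
  above : ∀ j, r < j → V j = ⊥
  gen : ∀ j, 1 ≤ j → Submodule.span ℝ {u | ∃ v ∈ V 1, ∃ w ∈ V j, u = bracket v w} = V (j + 1)
  proj : ∀ v : V 1, π v = v
  proj_zero : ∀ j, 2 ≤ j → ∀ v ∈ V j, π v = 0
  hom : ∀ x y : E, π (x * y) = π x + π y
  ker : ∀ x : E, π x = 0 ↔ x ∈ commutator E
  lower : (⊤ : Subgroup E).lowerCentralSeries (r - 1) ≠ ⊥
  nilp : (⊤ : Subgroup E).lowerCentralSeries r = ⊥

end Defs

section Jet
variable {E : Type} [NormedAddCommGroup E] [NormedSpace ℝ E] [Group E]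

/-- The underlying space of the first jet group: pairs of a point `x`, a linear form `α` on the
first layer, and a number. -/
def Jet {W : Submodule ℝ E} (_π : E →L[ℝ] W) (_h : ∀ x y : E, _π (x * y) = _π x + _π y) : Type :=
  E × ((W →L[ℝ] ℝ) × ℝ)

variable {W : Submodule ℝ E} {π : E →L[ℝ] W} {hπ : ∀ x y : E, π (x * y) = π x + π y}

noncomputable instance : NormedAddCommGroup (Jet π hπ) :=
  inferInstanceAs (NormedAddCommGroup (E × ((W →L[ℝ] ℝ) × ℝ)))
noncomputable instance : NormedSpace ℝ (Jet π hπ) :=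
  inferInstanceAs (NormedSpace ℝ (E × ((W →L[ℝ] ℝ) × ℝ)))

noncomputable instance : Mul (Jet π hπ) :=
  ⟨fun a b => (a.1 * b.1, (a.2.1 + b.2.1, a.2.2 + b.2.2 + a.2.1 (π b.1)))⟩
noncomputable instance : One (Jet π hπ) := ⟨(1, (0, 0))⟩
noncomputable instance : Inv (Jet π hπ) :=
  ⟨fun a => (a.1⁻¹, (-a.2.1, -a.2.2 + a.2.1 (π a.1)))⟩

lemma jmul (a b : Jet π hπ) :
    a * b = (a.1 * b.1, (a.2.1 + b.2.1, a.2.2 + b.2.2 + a.2.1 (π b.1))) := rfl
lemma jone : (1 : Jet π hπ) = (1, (0, 0)) := rfl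
lemma jinv (a : Jet π hπ) : a⁻¹ = (a.1⁻¹, (-a.2.1, -a.2.2 + a.2.1 (π a.1))) := rfl

include hπ in
lemma pi_one : π 1 = 0 := by
  have h := hπ 1 1
  rw [mul_one] at h
  simpa using h

include hπ in
lemma pi_inv (x : E) : π x⁻¹ = -π x := by
  have h := hπ x⁻¹ x
  rw [inv_mul_cancel, pi_one (hπ := hπ)] at h
  exact eq_neg_of_add_eq_zero_left h.symm

noncomputable instance jgroup : Group (Jet π hπ) := .ofLeftAxioms
  (fun a b c => by
    refine Prod.ext (mul_assoc a.1 b.1 c.1) (Prod.ext (add_assoc a.2.1 b.2.1 c.2.1) ?_)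
    change a.2.2 + b.2.2 + a.2.1 (π b.1) + c.2.2 + (a.2.1 + b.2.1) (π c.1) =
      a.2.2 + (b.2.2 + c.2.2 + b.2.1 (π c.1)) + a.2.1 (π (b.1 * c.1))
    rw [hπ, map_add, _root_.add_apply]
    ring)
  (fun a => by
    refine Prod.ext (one_mul a.1) (Prod.ext (zero_add a.2.1) ?_)
    change 0 + a.2.2 + (0 : W →L[ℝ] ℝ) (π a.1) = a.2.2
    simp)
  (fun a => by
    refine Prod.ext (inv_mul_cancel a.1) (Prod.ext (neg_add_cancel a.2.1) ?_)
    change -a.2.2 + a.2.1 (π a.1) + a.2.2 + (-a.2.1) (π a.1) = 0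
    rw [_root_.neg_apply]
    ring)

/-- The horizontal layer and the other layers of the jet group. -/
def Q (W : Submodule ℝ E) (j : ℕ) : Submodule ℝ ((W →L[ℝ] ℝ) × ℝ) :=
  if j = 1 then Submodule.prod ⊤ ⊥ else if j = 2 then Submodule.prod ⊥ ⊤ else ⊥

/-- The layers of the jet group. -/
def jetLayer (V : ℕ → Submodule ℝ E) {π : E →L[ℝ] V 1}
    (hπ : ∀ x y : E, π (x * y) = π x + π y) (j : ℕ) : Submodule ℝ (Jet π hπ) :=
  (Submodule.prod (V j) (Q (V 1) j) : Submodule ℝ (E × ((V 1 →L[ℝ] ℝ) × ℝ)))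

end Jet

end Pool.Agent.H41.CJ
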