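import Pool.Agent.H41.CJ.A

set_option autoImplicit false

namespace Pool.Agent.H41.CJ

open Set
open scoped ContDiff commutatorElement

variable {E : Type} [NormedAddCommGroup E] [NormedSpace ℝ E] [Group E]

section smth
variable (hm : ContDiff ℝ ∞ (fun p : E × E => p.1 * p.2))
include hm

lemma diff_mul (g : E) : Differentiable ℝ (fun k : E => g * k) := by
  have h : ContDiff ℝ ∞ (fun k : E => g * k) := hm.comp (contDiff_const.prodMk contDiff_id)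
  exact h.differentiable (by simp)

lemma contDiff_leftField (v : E) : ContDiff ℝ ∞ (fun g : E => leftField v g) := by
  unfold leftField
  exact ContDiff.fderiv_apply (f := fun g k : E => g * k) hm contDiff_const contDiff_const
    (by simp)

end smth

variable {W : Submodule ℝ E} {π : E →L[ℝ] W} {hπ : ∀ x y : E, π (x * y) = π x + π y}

lemma lf (hm : ContDiff ℝ ∞ (fun p : E × E => p.1 * p.2)) (A g : Jet π hπ) :
    leftField A g = ((leftField A.1 g.1, (A.2.1, A.2.2 + g.2.1 (π A.1))) :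
      E × ((W →L[ℝ] ℝ) × ℝ)) := by
  have h0 := ((diff_mul hm g.1) 1).hasFDerivAt
  have h1 : HasFDerivAt (fun k : E × ((W →L[ℝ] ℝ) × ℝ) => ((g.1 * k.1,
      (g.2.1 + k.2.1, g.2.2 + k.2.2 + g.2.1 (π k.1))) : E × ((W →L[ℝ] ℝ) × ℝ)))
      (((fderiv ℝ (fun k : E => g.1 * k) 1).comp (ContinuousLinearMap.fst ℝ E _)).prod
        (((ContinuousLinearMap.fst ℝ (W →L[ℝ] ℝ) ℝ).comp (ContinuousLinearMap.snd ℝ E _)).prod
          ((ContinuousLinearMap.snd ℝ (W →L[ℝ] ℝ) ℝ).comp (ContinuousLinearMap.snd ℝ E _) +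
            (g.2.1.comp π).comp (ContinuousLinearMap.fst ℝ E _)))) ((1, (0, 0)) : E × _) := by
    have a1 : HasFDerivAt (fun k : E × ((W →L[ℝ] ℝ) × ℝ) => g.1 * k.1)
        ((fderiv ℝ (fun k : E => g.1 * k) 1).comp (ContinuousLinearMap.fst ℝ E _))
        ((1, (0, 0)) : E × ((W →L[ℝ] ℝ) × ℝ)) :=
      HasFDerivAt.comp (g := fun k : E => g.1 * k)
        (f := fun k : E × ((W →L[ℝ] ℝ) × ℝ) => k.1)
        ((1, (0, 0)) : E × ((W →L[ℝ] ℝ) × ℝ)) h0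
        (ContinuousLinearMap.fst ℝ E ((W →L[ℝ] ℝ) × ℝ)).hasFDerivAt
    have a2 : HasFDerivAt (fun k : E × ((W →L[ℝ] ℝ) × ℝ) => g.2.1 + k.2.1)
        ((ContinuousLinearMap.fst ℝ (W →L[ℝ] ℝ) ℝ).comp (ContinuousLinearMap.snd ℝ E _))
        ((1, (0, 0)) : E × ((W →L[ℝ] ℝ) × ℝ)) := by
      have b : HasFDerivAt (fun k : E × ((W →L[ℝ] ℝ) × ℝ) => k.2.1)
        ((ContinuousLinearMap.fst ℝ (W →L[ℝ] ℝ) ℝ).comp (ContinuousLinearMap.snd ℝ E _))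
        ((1, (0, 0)) : E × ((W →L[ℝ] ℝ) × ℝ)) :=
        ((ContinuousLinearMap.fst ℝ (W →L[ℝ] ℝ) ℝ).comp
          (ContinuousLinearMap.snd ℝ E _)).hasFDerivAt
      exact HasFDerivAt.const_add (𝕜 := ℝ) (E := E × ((W →L[ℝ] ℝ) × ℝ)) (F := W →L[ℝ] ℝ) g.2.1 b
    have a3 : HasFDerivAt (fun k : E × ((W →L[ℝ] ℝ) × ℝ) => g.2.2 + k.2.2 + g.2.1 (π k.1))
        ((ContinuousLinearMap.snd ℝ (W →L[ℝ] ℝ) ℝ).comp (ContinuousLinearMap.snd ℝ E _) +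
            (g.2.1.comp π).comp (ContinuousLinearMap.fst ℝ E _))
        ((1, (0, 0)) : E × ((W →L[ℝ] ℝ) × ℝ)) :=
      HasFDerivAt.add (𝕜 := ℝ) (E := E × ((W →L[ℝ] ℝ) × ℝ)) (F := ℝ)
        (f := fun k : E × ((W →L[ℝ] ℝ) × ℝ) => g.2.2 + k.2.2)
        (g := fun k : E × ((W →L[ℝ] ℝ) × ℝ) => g.2.1 (π k.1))
        (HasFDerivAt.const_add (𝕜 := ℝ) (E := E × ((W →L[ℝ] ℝ) × ℝ)) (F := ℝ) g.2.2
          (f := fun k : E × ((W →L[ℝ] ℝ) × ℝ) => k.2.2)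
          ((ContinuousLinearMap.snd ℝ (W →L[ℝ] ℝ) ℝ).comp
            (ContinuousLinearMap.snd ℝ E _)).hasFDerivAt)
        ((g.2.1.comp π).comp (ContinuousLinearMap.fst ℝ E ((W →L[ℝ] ℝ) × ℝ))).hasFDerivAt
    exact HasFDerivAt.prodMk (𝕜 := ℝ) (E := E × ((W →L[ℝ] ℝ) × ℝ)) (F := E) (G := (W →L[ℝ] ℝ) × ℝ) a1
      (HasFDerivAt.prodMk (𝕜 := ℝ) (E := E × ((W →L[ℝ] ℝ) × ℝ)) (F := W →L[ℝ] ℝ) (G := ℝ) a2 a3)
  exact DFunLike.congr_fun h1.fderiv A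

lemma br (hm : ContDiff ℝ ∞ (fun p : E × E => p.1 * p.2)) (A B : Jet π hπ) :
    bracket A B = ((bracket A.1 B.1, (0, A.2.1 (π B.1) - B.2.1 (π A.1))) :
      E × ((W →L[ℝ] ℝ) × ℝ)) := by
  have h : ∀ B C : Jet π hπ, fderiv ℝ (leftField B) (1 : Jet π hπ) C =
      ((fderiv ℝ (leftField B.1) 1 C.1, (0, C.2.1 (π B.1))) : E × ((W →L[ℝ] ℝ) × ℝ)) := by
    intro B C
    have h0 := ((contDiff_leftField hm B.1).differentiable (by simp) 1).hasFDerivAt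
    rw [show (leftField B : Jet π hπ → Jet π hπ) = fun g : Jet π hπ =>
      ((leftField B.1 g.1, (B.2.1, B.2.2 + g.2.1 (π B.1))) : E × ((W →L[ℝ] ℝ) × ℝ)) from
      funext (lf hm B)]
    have h1 : HasFDerivAt (fun g : E × ((W →L[ℝ] ℝ) × ℝ) => ((leftField B.1 g.1,
        (B.2.1, B.2.2 + g.2.1 (π B.1))) : E × ((W →L[ℝ] ℝ) × ℝ)))
        (((fderiv ℝ (leftField B.1) 1).comp (ContinuousLinearMap.fst ℝ E _)).prod
          ((0 : E × ((W →L[ℝ] ℝ) × ℝ) →L[ℝ] (W →L[ℝ] ℝ)).prod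
            ((ContinuousLinearMap.apply ℝ ℝ (π B.1)).comp
              ((ContinuousLinearMap.fst ℝ (W →L[ℝ] ℝ) ℝ).comp
                (ContinuousLinearMap.snd ℝ E _))))) ((1, (0, 0)) : E × _) := by
      have a1 : HasFDerivAt (fun g : E × ((W →L[ℝ] ℝ) × ℝ) => leftField B.1 g.1)
          ((fderiv ℝ (leftField B.1) 1).comp (ContinuousLinearMap.fst ℝ E _))
          ((1, (0, 0)) : E × ((W →L[ℝ] ℝ) × ℝ)) :=
        HasFDerivAt.comp (g := fun k : E => leftField B.1 k)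
          (f := fun k : E × ((W →L[ℝ] ℝ) × ℝ) => k.1)
          ((1, (0, 0)) : E × ((W →L[ℝ] ℝ) × ℝ)) h0
        (ContinuousLinearMap.fst ℝ E ((W →L[ℝ] ℝ) × ℝ)).hasFDerivAt
      have a2 : HasFDerivAt (fun _g : E × ((W →L[ℝ] ℝ) × ℝ) => B.2.1)
          (0 : E × ((W →L[ℝ] ℝ) × ℝ) →L[ℝ] (W →L[ℝ] ℝ))
          ((1, (0, 0)) : E × ((W →L[ℝ] ℝ) × ℝ)) := hasFDerivAt_const _ _
      have a3 : HasFDerivAt (fun g : E × ((W →L[ℝ] ℝ) × ℝ) => B.2.2 + g.2.1 (π B.1))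
          ((ContinuousLinearMap.apply ℝ ℝ (π B.1)).comp
              ((ContinuousLinearMap.fst ℝ (W →L[ℝ] ℝ) ℝ).comp
                (ContinuousLinearMap.snd ℝ E _)))
          ((1, (0, 0)) : E × ((W →L[ℝ] ℝ) × ℝ)) :=
        HasFDerivAt.const_add (𝕜 := ℝ) (E := E × ((W →L[ℝ] ℝ) × ℝ)) (F := ℝ) B.2.2
          (f := fun g : E × ((W →L[ℝ] ℝ) × ℝ) => g.2.1 (π B.1))
          ((ContinuousLinearMap.apply ℝ ℝ (π B.1)).comp
              ((ContinuousLinearMap.fst ℝ (W →L[ℝ] ℝ) ℝ).comp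
                (ContinuousLinearMap.snd ℝ E _))).hasFDerivAt
      exact HasFDerivAt.prodMk (𝕜 := ℝ) (E := E × ((W →L[ℝ] ℝ) × ℝ)) (F := E) (G := (W →L[ℝ] ℝ) × ℝ) a1
        (HasFDerivAt.prodMk (𝕜 := ℝ) (E := E × ((W →L[ℝ] ℝ) × ℝ)) (F := W →L[ℝ] ℝ) (G := ℝ) a2 a3)
    exact DFunLike.congr_fun h1.fderiv C
  have h1 : bracket A B = fderiv ℝ (leftField B) (1 : Jet π hπ) (leftField A 1) -
      fderiv ℝ (leftField A) (1 : Jet π hπ) (leftField B 1) := rfl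
  have h2 : bracket A.1 B.1 = fderiv ℝ (leftField B.1) (1 : E) (leftField A.1 1) -
      fderiv ℝ (leftField A.1) (1 : E) (leftField B.1 1) := rfl
  have e1 : leftField A (1 : Jet π hπ) = A := by unfold leftField; simp
  have e2 : leftField B (1 : Jet π hπ) = B := by unfold leftField; simp
  rw [h1, e1, e2, h, h]
  have e3 : leftField A.1 (1 : E) = A.1 := by unfold leftField; simp
  have e4 : leftField B.1 (1 : E) = B.1 := by unfold leftField; simp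
  rw [h2, e3, e4]
  exact Prod.ext rfl (Prod.ext (sub_zero _) rfl)

end Pool.Agent.H41.CJ
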