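import Pool.Agent.H41.CJ.B

set_option autoImplicit false

namespace Pool.Agent.H41.CJ

open Set
open scoped ContDiff commutatorElement

variable {E : Type} [NormedAddCommGroup E] [NormedSpace ℝ E] [Group E]

section grp
variable {W : Submodule ℝ E} {π : E →L[ℝ] W} {hπ : ∀ x y : E, π (x * y) = π x + π y}

/-- The point of the jet group with the given coordinates. -/
def mk (x : E) (α : W →L[ℝ] ℝ) (s : ℝ) : Jet π hπ := (x, (α, s))

/-- The projection of the jet group to the group. -/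
noncomputable def pr : Jet π hπ →* E := MonoidHom.mk' (fun a => a.1) fun _ _ => rfl

lemma pr_surj : Function.Surjective (pr : Jet π hπ →* E) := fun x => ⟨mk x 0 0, rfl⟩

/-- The linear form coordinate. -/
noncomputable def al : Jet π hπ →* Multiplicative (W →L[ℝ] ℝ) :=
  MonoidHom.mk' (fun a => .ofAdd a.2.1) fun _ _ => rfl

/-- The abelianization of the group. -/
noncomputable def pim (hπ : ∀ x y : E, π (x * y) = π x + π y) : E →* Multiplicative W :=
  MonoidHom.mk' (fun a => .ofAdd (π a)) fun x y => by rw [hπ, ofAdd_add]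

lemma jcomm (a b : Jet π hπ) : ⁅a, b⁆ =
    mk ⁅a.1, b.1⁆ 0 (a.2.1 (π b.1) - b.2.1 (π a.1)) := by
  have h : a * b = (mk ⁅a.1, b.1⁆ 0 (a.2.1 (π b.1) - b.2.1 (π a.1)) : Jet π hπ) * (b * a) := by
    refine Prod.ext ?_ (Prod.ext ?_ ?_)
    · change a.1 * b.1 = ⁅a.1, b.1⁆ * (b.1 * a.1)
      rw [commutatorElement_def]; group
    · change a.2.1 + b.2.1 = 0 + (b.2.1 + a.2.1)
      abel
    · change a.2.2 + b.2.2 + a.2.1 (π b.1) = a.2.1 (π b.1) - b.2.1 (π a.1) +
        (b.2.2 + a.2.2 + b.2.1 (π a.1)) + (0 : W →L[ℝ] ℝ) (π (b.1 * a.1))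
      rw [_root_.zero_apply]; ring
  rw [commutatorElement_def, h]
  group

lemma al_comm {a : Jet π hπ} (h : a ∈ commutator (Jet π hπ)) : a.2.1 = 0 :=
  Abelianization.commutator_subset_ker (al : Jet π hπ →* Multiplicative (W →L[ℝ] ℝ)) h

include hπ in
lemma pi_comm {x : E} (h : x ∈ commutator E) : π x = 0 :=
  Abelianization.commutator_subset_ker (pim hπ) h

lemma map_lcs (n : ℕ) : ((⊤ : Subgroup (Jet π hπ)).lowerCentralSeries n).map pr =
    (⊤ : Subgroup E).lowerCentralSeries n := by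
  rw [Subgroup.map_lowerCentralSeries, Subgroup.map_top_of_surjective _ pr_surj]

lemma exists_lift (n : ℕ) {x : E} (hx : x ∈ (⊤ : Subgroup E).lowerCentralSeries n) :
    ∃ a : Jet π hπ, a.1 = x ∧ a ∈ (⊤ : Subgroup (Jet π hπ)).lowerCentralSeries n := by
  rw [← map_lcs (π := π) (hπ := hπ) n] at hx
  obtain ⟨a, ha, rfl⟩ := hx
  exact ⟨a, rfl, ha⟩

/-- central elements -/
lemma vert_comm (hp : ∀ v : W, π v = v) (hW : W ≠ ⊥) (s : ℝ) :
    (mk 1 0 s : Jet π hπ) ∈ commutator (Jet π hπ) := by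
  obtain ⟨v, hv, hv0⟩ := Submodule.exists_mem_ne_zero_of_ne_bot hW
  have hv' : (⟨v, hv⟩ : W) ≠ 0 := fun h => hv0 (congrArg Subtype.val h)
  obtain ⟨f, hf⟩ := SeparatingDual.exists_eq_one (R := ℝ) hv'
  have h := Subgroup.commutator_mem_commutator
    (Subgroup.mem_top (mk 1 (s • f) 0 : Jet π hπ))
    (Subgroup.mem_top (mk v 0 0 : Jet π hπ))
  rw [jcomm] at h
  rw [commutator_def]
  convert h using 1
  refine Prod.ext ?_ (Prod.ext ?_ ?_)
  · change (1 : E) = ⁅(1 : E), v⁆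
    simp
  · rfl
  · change s = (s • f) (π v) - (0 : W →L[ℝ] ℝ) (π (1 : E))
    have : π v = ⟨v, hv⟩ := hp ⟨v, hv⟩
    rw [this, _root_.zero_apply, _root_.smul_apply, hf]
    simp

end grp

section layers
variable {V : ℕ → Submodule ℝ E} {π : E →L[ℝ] V 1} {r : ℕ}

lemma bracket_zero_left (w : E) : bracket (0 : E) w = 0 := by
  have h : leftField (0 : E) = fun _ => 0 := by
    funext g
    unfold leftField
    simp
  unfold bracket
  rw [h]
  simp [VectorField.lieBracket]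

lemma IsCarnot.V1_ne (h : IsCarnot V π r) : V 1 ≠ ⊥ := by
  intro h1
  have : ∀ j, 1 ≤ j → V j = ⊥ := by
    intro j hj
    induction j, hj using Nat.le_induction with
    | base => exact h1
    | succ j hj ih =>
      rw [← h.gen j hj, Submodule.span_eq_bot]
      rintro u ⟨v, hv, w, hw, rfl⟩
      rw [h1, Submodule.mem_bot] at hv
      rw [hv, bracket_zero_left]
  exact h.last (this r h.pos)

omit [Group E] in
lemma Q_indep (W : Submodule ℝ E) : iSupIndep (Q W) := by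
  intro j
  by_cases h1 : j = 1
  · subst h1
    refine Disjoint.mono_right (iSup₂_le (a := Submodule.prod ⊥ ⊤) fun k hk => ?_) ?_
    · unfold Q
      rw [if_neg hk]
      split_ifs
      · exact le_rfl
      · exact bot_le
    · unfold Q
      rw [if_pos rfl, Submodule.disjoint_def]
      rintro ⟨x, y⟩ hx hy
      exact Prod.ext hy.1 hx.2
  · by_cases h2 : j = 2
    · subst h2
      refine Disjoint.mono_right (iSup₂_le (a := Submodule.prod ⊤ ⊥) fun k hk => ?_) ?_
      · unfold Q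
        split_ifs with h3
        · exact le_rfl
        · exact bot_le
      · unfold Q
        rw [if_neg (by norm_num), if_pos rfl, Submodule.disjoint_def]
        rintro ⟨x, y⟩ hx hy
        exact Prod.ext hx.1 hy.2
    · unfold Q
      rw [if_neg h1, if_neg h2]
      exact disjoint_bot_left

/-- The abelianization of the jet group. -/
noncomputable def jetProj (V : ℕ → Submodule ℝ E) {π : E →L[ℝ] V 1}
    (hπ : ∀ x y : E, π (x * y) = π x + π y) : Jet π hπ →L[ℝ] jetLayer V hπ 1 :=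
  ContinuousLinearMap.codRestrict
    ((((V 1).subtypeL.comp (π.comp (ContinuousLinearMap.fst ℝ E ((V 1 →L[ℝ] ℝ) × ℝ)))).prod
      (((ContinuousLinearMap.fst ℝ (V 1 →L[ℝ] ℝ) ℝ).comp
        (ContinuousLinearMap.snd ℝ E ((V 1 →L[ℝ] ℝ) × ℝ))).prod 0) :
      E × ((V 1 →L[ℝ] ℝ) × ℝ) →L[ℝ] E × ((V 1 →L[ℝ] ℝ) × ℝ)))
    (jetLayer V hπ 1 : Submodule ℝ (E × ((V 1 →L[ℝ] ℝ) × ℝ)))
    (fun a => ⟨(π a.1).2, by
      unfold Q
      rw [if_pos rfl]
      exact ⟨trivial, rfl⟩⟩)

lemma jetProj_val {hπ : ∀ x y : E, π (x * y) = π x + π y} (a : Jet π hπ) :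
    (jetProj V hπ a : Jet π hπ) = (((π a.1 : E), (a.2.1, 0)) : E × ((V 1 →L[ℝ] ℝ) × ℝ)) := rfl

lemma mem_layer {hπ : ∀ x y : E, π (x * y) = π x + π y} {j : ℕ} {a : Jet π hπ} :
    a ∈ jetLayer V hπ j ↔ a.1 ∈ V j ∧ (j ≠ 1 → a.2.1 = 0) ∧ (j ≠ 2 → a.2.2 = 0) := by
  change a.1 ∈ V j ∧ a.2 ∈ Q (V 1) j ↔ _
  refine and_congr_right fun _ => ?_
  unfold Q
  split_ifs with h1 h2
  · subst h1
    change (True ∧ a.2.2 = 0) ↔ _
    simp
  · subst h2
    change (a.2.1 = 0 ∧ True) ↔ _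
    simp
  · rw [Submodule.mem_bot]
    constructor
    · intro h
      exact ⟨fun _ => congrArg Prod.fst h, fun _ => congrArg Prod.snd h⟩
    · intro h
      exact Prod.ext (h.1 h1) (h.2 h2)

end layers

end Pool.Agent.H41.CJ
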