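import Pool.Agent.H41.CJ.C

set_option autoImplicit false

namespace Pool.Agent.H41.CJ

open Set
open scoped ContDiff commutatorElement

variable {E : Type} [NormedAddCommGroup E] [NormedSpace ℝ E] [Group E]
variable {V : ℕ → Submodule ℝ E} {π : E →L[ℝ] V 1} {r : ℕ}

lemma jet_smooth_mul (h : IsCarnot V π r) :
    ContDiff ℝ ∞ (fun p : Jet π h.hom × Jet π h.hom => p.1 * p.2) := by
  have h1 : ContDiff ℝ ∞ (fun p : (E × ((V 1 →L[ℝ] ℝ) × ℝ)) × (E × ((V 1 →L[ℝ] ℝ) × ℝ)) =>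
      p.1.1 * p.2.1) := h.smooth_mul.comp
    (f := fun p : (E × ((V 1 →L[ℝ] ℝ) × ℝ)) × (E × ((V 1 →L[ℝ] ℝ) × ℝ)) => (p.1.1, p.2.1))
    (by fun_prop)
  have h2 : ContDiff ℝ ∞ (fun p : (E × ((V 1 →L[ℝ] ℝ) × ℝ)) × (E × ((V 1 →L[ℝ] ℝ) × ℝ)) =>
      p.1.2.1 + p.2.2.1) := by fun_prop
  have h4 : ContDiff ℝ ∞ (fun p : (E × ((V 1 →L[ℝ] ℝ) × ℝ)) × (E × ((V 1 →L[ℝ] ℝ) × ℝ)) =>
      p.1.2.1 (π p.2.1)) := ContDiff.clm_apply (by fun_prop) (by fun_prop)
  have h3 : ContDiff ℝ ∞ (fun p : (E × ((V 1 →L[ℝ] ℝ) × ℝ)) × (E × ((V 1 →L[ℝ] ℝ) × ℝ)) =>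
      p.1.2.2 + p.2.2.2 + p.1.2.1 (π p.2.1)) := ContDiff.add (by fun_prop) h4
  exact h1.prodMk (h2.prodMk h3)

lemma jet_smooth_inv (h : IsCarnot V π r) :
    ContDiff ℝ ∞ (fun p : Jet π h.hom => p⁻¹) := by
  have h1 : ContDiff ℝ ∞ (fun p : E × ((V 1 →L[ℝ] ℝ) × ℝ) => (p.1)⁻¹) := h.smooth_inv.comp
    (f := fun p : E × ((V 1 →L[ℝ] ℝ) × ℝ) => p.1) (by fun_prop)
  have h2 : ContDiff ℝ ∞ (fun p : E × ((V 1 →L[ℝ] ℝ) × ℝ) => -p.2.1) := by fun_prop
  have h4 : ContDiff ℝ ∞ (fun p : E × ((V 1 →L[ℝ] ℝ) × ℝ) => p.2.1 (π p.1)) :=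
    ContDiff.clm_apply (by fun_prop) (by fun_prop)
  have h3 : ContDiff ℝ ∞ (fun p : E × ((V 1 →L[ℝ] ℝ) × ℝ) => -p.2.2 + p.2.1 (π p.1)) :=
    ContDiff.add (by fun_prop) h4
  exact h1.prodMk (h2.prodMk h3)

lemma jet_indep (h : IsCarnot V π r) : iSupIndep (jetLayer V h.hom) := by
  intro j
  have h1 : ⨆ (k) (_ : k ≠ j), jetLayer V h.hom k ≤
      (Submodule.prod (⨆ (k) (_ : k ≠ j), V k) (⨆ (k) (_ : k ≠ j), Q (V 1) k) :
        Submodule ℝ (E × ((V 1 →L[ℝ] ℝ) × ℝ))) :=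
    iSup₂_le fun k hk => Submodule.prod_mono (le_iSup₂ (f := fun k (_ : k ≠ j) => V k) k hk)
      (le_iSup₂ (f := fun k (_ : k ≠ j) => Q (V 1) k) k hk)
  refine Disjoint.mono_right h1 ((Submodule.disjoint_def (R := ℝ) (M := Jet π h.hom)).2 ?_)
  intro x hx hy
  exact Prod.ext ((Submodule.disjoint_def.1 (h.indep j)) x.1 hx.1 hy.1)
    ((Submodule.disjoint_def.1 (Q_indep (V 1) j)) x.2 hx.2 hy.2)

/-- the inclusion of the group as a linear map -/
def inl (hπ : ∀ x y : E, π (x * y) = π x + π y) : E →ₗ[ℝ] Jet π hπ :=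
  (LinearMap.inl ℝ E ((V 1 →L[ℝ] ℝ) × ℝ) : E →ₗ[ℝ] E × ((V 1 →L[ℝ] ℝ) × ℝ))

lemma jet_top (h : IsCarnot V π r) : ⨆ j, jetLayer V h.hom j = ⊤ := by
  rw [eq_top_iff]
  intro a _
  have e : a = inl h.hom a.1 + ((mk 0 a.2.1 0 : Jet π h.hom) + (mk 0 0 a.2.2 : Jet π h.hom)) := by
    refine Prod.ext ?_ (Prod.ext ?_ ?_)
    · change a.1 = a.1 + (0 + 0)
      simp
    · change a.2.1 = 0 + (a.2.1 + 0)
      simp
    · change a.2.2 = 0 + (0 + a.2.2)
      simp
  rw [e]
  refine Submodule.add_mem _ ?_ (Submodule.add_mem _ ?_ ?_)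
  · have h1 : Submodule.map (inl h.hom) (⨆ j, V j) ≤ ⨆ j, jetLayer V h.hom j := by
      rw [Submodule.map_iSup]
      refine iSup_mono fun j => ?_
      rintro _ ⟨x, hx, rfl⟩
      exact mem_layer.2 ⟨hx, fun _ => rfl, fun _ => rfl⟩
    refine h1 ⟨a.1, ?_, rfl⟩
    rw [h.top]
    trivial
  · exact Submodule.mem_iSup_of_mem 1 (mem_layer.2 ⟨Submodule.zero_mem _, fun hh => absurd rfl hh,
      fun _ => rfl⟩)
  · exact Submodule.mem_iSup_of_mem 2 (mem_layer.2 ⟨Submodule.zero_mem _, fun _ => rfl,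
      fun hh => absurd rfl hh⟩)

lemma jet_gen (h : IsCarnot V π r) (j : ℕ) (hj : 1 ≤ j) :
    Submodule.span ℝ {u : Jet π h.hom | ∃ v ∈ jetLayer V h.hom 1, ∃ w ∈ jetLayer V h.hom j,
      u = bracket v w} = jetLayer V h.hom (j + 1) := by
  refine le_antisymm (Submodule.span_le.2 ?_) fun a ha => ?_
  · rintro _ ⟨A, hA, B, hB, rfl⟩
    rw [mem_layer] at hA hB
    rw [SetLike.mem_coe, mem_layer, br h.smooth_mul]
    refine ⟨?_, fun _ => rfl, fun h2 => ?_⟩
    · change bracket A.1 B.1 ∈ V (j + 1)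
      rw [← h.gen j hj]
      exact Submodule.subset_span ⟨A.1, hA.1, B.1, hB.1, rfl⟩
    · change A.2.1 (π B.1) - B.2.1 (π A.1) = 0
      have hj2 : 2 ≤ j := by omega
      rw [h.proj_zero j hj2 B.1 hB.1, hB.2.1 (by omega)]
      simp
  · rw [mem_layer] at ha
    have e : a = inl h.hom a.1 + (mk 0 0 a.2.2 : Jet π h.hom) := by
      refine Prod.ext ?_ (Prod.ext ?_ ?_)
      · change a.1 = a.1 + 0
        simp
      · change a.2.1 = 0 + 0
        rw [ha.2.1 (by omega), add_zero]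
      · change a.2.2 = 0 + a.2.2
        simp
    rw [e]
    refine Submodule.add_mem _ ?_ ?_
    · have h1 : Submodule.map (inl h.hom) (Submodule.span ℝ {u | ∃ v ∈ V 1, ∃ w ∈ V j,
          u = bracket v w}) ≤ Submodule.span ℝ {u : Jet π h.hom | ∃ v ∈ jetLayer V h.hom 1,
            ∃ w ∈ jetLayer V h.hom j, u = bracket v w} := by
        rw [Submodule.map_span]
        refine Submodule.span_mono ?_
        rintro _ ⟨_, ⟨v, hv, w, hw, rfl⟩, rfl⟩
        refine ⟨inl h.hom v, mem_layer.2 ⟨hv, fun _ => rfl, fun _ => rfl⟩, inl h.hom w,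
          mem_layer.2 ⟨hw, fun _ => rfl, fun _ => rfl⟩, ?_⟩
        rw [br h.smooth_mul]
        refine Prod.ext rfl (Prod.ext rfl ?_)
        change (0 : ℝ) = (0 : V 1 →L[ℝ] ℝ) (π w) - (0 : V 1 →L[ℝ] ℝ) (π v)
        simp
      refine h1 ⟨a.1, ?_, rfl⟩
      rw [h.gen j hj]
      exact ha.1
    · by_cases hj1 : j = 1
      · subst hj1
        obtain ⟨v, hv, hv0⟩ := Submodule.exists_mem_ne_zero_of_ne_bot h.V1_ne
        have hv' : (⟨v, hv⟩ : V 1) ≠ 0 := fun h => hv0 (congrArg Subtype.val h)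
        obtain ⟨f, hf⟩ := SeparatingDual.exists_eq_one (R := ℝ) hv'
        refine Submodule.subset_span ⟨mk 0 (a.2.2 • f) 0, mem_layer.2 ⟨Submodule.zero_mem _,
          fun hh => absurd rfl hh, fun _ => rfl⟩, inl h.hom v,
          mem_layer.2 ⟨hv, fun _ => rfl, fun _ => rfl⟩, ?_⟩
        rw [br h.smooth_mul]
        refine Prod.ext ?_ (Prod.ext rfl ?_)
        · change (0 : E) = bracket 0 v
          rw [bracket_zero_left]
        · change a.2.2 = (a.2.2 • f) (π v) - (0 : V 1 →L[ℝ] ℝ) (π 0)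
          have : π v = ⟨v, hv⟩ := h.proj ⟨v, hv⟩
          rw [this, _root_.zero_apply, _root_.smul_apply, hf]
          simp
      · have : (mk 0 0 a.2.2 : Jet π h.hom) = 0 := by
          refine Prod.ext rfl (Prod.ext rfl ?_)
          exact ha.2.2 (by omega)
        rw [this]
        exact Submodule.zero_mem _

lemma jet_ker (h : IsCarnot V π r) (a : Jet π h.hom) :
    jetProj V h.hom a = 0 ↔ a ∈ commutator (Jet π h.hom) := by
  constructor
  · intro ha
    have h1 := congrArg Subtype.val ha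
    rw [jetProj_val] at h1
    have e1 : π a.1 = 0 := Subtype.ext (congrArg (fun b : E × ((V 1 →L[ℝ] ℝ) × ℝ) => b.1) h1)
    have e2 : a.2.1 = 0 := congrArg (fun b : E × ((V 1 →L[ℝ] ℝ) × ℝ) => b.2.1) h1
    have h2 := (h.ker a.1).1 e1
    rw [← Subgroup.top_lowerCentralSeries_one] at h2
    obtain ⟨b, hb1, hb2⟩ := exists_lift (π := π) (hπ := h.hom) 1 h2
    rw [Subgroup.top_lowerCentralSeries_one] at hb2
    have hb3 := al_comm hb2
    have e : a = b * (mk 1 0 (a.2.2 - b.2.2) : Jet π h.hom) := by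
      refine Prod.ext ?_ (Prod.ext ?_ ?_)
      · change a.1 = b.1 * 1
        rw [hb1, mul_one]
      · change a.2.1 = b.2.1 + 0
        rw [e2, hb3, add_zero]
      · change a.2.2 = b.2.2 + (a.2.2 - b.2.2) + b.2.1 (π 1)
        rw [hb3, _root_.zero_apply]
        ring
    rw [e]
    exact mul_mem hb2 (vert_comm h.proj h.V1_ne _)
  · intro ha
    refine Subtype.ext ?_
    rw [jetProj_val]
    have h1 := al_comm ha
    have h2 : a.1 ∈ commutator E := by
      have := Subgroup.mem_map_of_mem (pr : Jet π h.hom →* E) ha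
      rw [← Subgroup.top_lowerCentralSeries_one, map_lcs] at this
      rwa [← Subgroup.top_lowerCentralSeries_one]
    rw [(h.ker a.1).2 h2, h1]
    rfl

/-- The jet group is a Carnot group. -/
theorem jet_isCarnot (h : IsCarnot V π r) :
    IsCarnot (jetLayer V h.hom) (jetProj V h.hom) (max r 2) where
  smooth_mul := jet_smooth_mul h
  smooth_inv := jet_smooth_inv h
  indep := jet_indep h
  top := jet_top h
  zero := by
    rw [eq_bot_iff]
    intro a ha
    rw [mem_layer, h.zero, Submodule.mem_bot] at ha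
    exact Prod.ext ha.1 (Prod.ext (ha.2.1 (by norm_num)) (ha.2.2 (by norm_num)))
  pos := le_max_of_le_left h.pos
  last := by
    rw [Submodule.ne_bot_iff]
    by_cases hr : 2 ≤ r
    · obtain ⟨v, hv, hv0⟩ := Submodule.exists_mem_ne_zero_of_ne_bot h.last
      rw [max_eq_left hr]
      exact ⟨inl h.hom v, mem_layer.2 ⟨hv, fun _ => rfl, fun _ => rfl⟩,
        fun hh => hv0 (congrArg (fun b : E × ((V 1 →L[ℝ] ℝ) × ℝ) => b.1) hh)⟩
    · rw [max_eq_right (by omega)]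
      refine ⟨mk 0 0 1, mem_layer.2 ⟨Submodule.zero_mem _, fun _ => rfl, fun hh => absurd rfl hh⟩,
        fun hh => one_ne_zero (congrArg (fun b : E × ((V 1 →L[ℝ] ℝ) × ℝ) => b.2.2) hh)⟩
  above := by
    intro j hj
    rw [eq_bot_iff]
    intro a ha
    have h1 : r < j := lt_of_le_of_lt (le_max_left _ _) hj
    have h2 : 2 < j := lt_of_le_of_lt (le_max_right _ _) hj
    rw [mem_layer, h.above j h1, Submodule.mem_bot] at ha
    exact Prod.ext ha.1 (Prod.ext (ha.2.1 (by omega)) (ha.2.2 (by omega)))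
  gen := jet_gen h
  proj := by
    rintro ⟨a, ha⟩
    refine Subtype.ext ?_
    rw [jetProj_val]
    rw [mem_layer] at ha
    have e : π a.1 = ⟨a.1, ha.1⟩ := h.proj ⟨a.1, ha.1⟩
    refine Prod.ext ?_ (Prod.ext rfl ?_)
    · change (π a.1 : E) = a.1
      rw [e]
    · exact (ha.2.2 (by norm_num)).symm
  proj_zero := by
    intro j hj a ha
    refine Subtype.ext ?_
    rw [jetProj_val]
    rw [mem_layer] at ha
    rw [h.proj_zero j hj a.1 ha.1, ha.2.1 (by omega)]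
    rfl
  hom := by
    intro a b
    refine Subtype.ext ?_
    rw [Submodule.coe_add, jetProj_val, jetProj_val, jetProj_val]
    refine Prod.ext ?_ (Prod.ext rfl ?_)
    · change (π (a.1 * b.1) : E) = π a.1 + π b.1
      rw [h.hom]
      rfl
    · exact (add_zero _).symm
  ker := jet_ker h
  lower := by
    by_cases hr : 2 ≤ r
    · rw [max_eq_left hr]
      intro hb
      have h1 := map_lcs (π := π) (hπ := h.hom) (r - 1)
      rw [hb, Subgroup.map_bot] at h1
      exact h.lower h1.symm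
    · rw [max_eq_right (by omega)]
      intro hb
      have h1 := vert_comm (π := π) (hπ := h.hom) h.proj h.V1_ne 1
      rw [← Subgroup.top_lowerCentralSeries_one] at h1
      change _ ∈ (⊤ : Subgroup (Jet π h.hom)).lowerCentralSeries (2 - 1) at h1
      rw [hb, Subgroup.mem_bot] at h1
      exact one_ne_zero (congrArg (fun b : E × ((V 1 →L[ℝ] ℝ) × ℝ) => b.2.2) h1)
  nilp := by
    obtain ⟨m, hm, hm1⟩ : ∃ m, max r 2 = m + 1 ∧ 1 ≤ m := ⟨max r 2 - 1, by omega, by omega⟩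
    rw [hm, eq_bot_iff]
    refine Subgroup.commutator_le.2 fun a ha b _ => ?_
    rw [Subgroup.mem_bot, jcomm]
    have h1 : a ∈ commutator (Jet π h.hom) := by
      rw [← Subgroup.top_lowerCentralSeries_one]
      exact Subgroup.lowerCentralSeries_antitone _ hm1 ha
    have h2 : a.1 ∈ (⊤ : Subgroup E).lowerCentralSeries m := by
      rw [← map_lcs (π := π) (hπ := h.hom) m]
      exact ⟨a, ha, rfl⟩
    have h3 : a.1 ∈ commutator E := by
      rw [← Subgroup.top_lowerCentralSeries_one]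
      exact Subgroup.lowerCentralSeries_antitone _ hm1 h2
    have h4 : ⁅a.1, b.1⁆ ∈ (⊤ : Subgroup E).lowerCentralSeries (m + 1) :=
      Subgroup.commutator_mem_commutator h2 (Subgroup.mem_top _)
    have h5 : ⁅a.1, b.1⁆ = 1 := by
      have := Subgroup.lowerCentralSeries_antitone (⊤ : Subgroup E) (show r ≤ m + 1 by omega) h4
      rwa [h.nilp, Subgroup.mem_bot] at this
    rw [h5, (h.ker a.1).2 h3, al_comm h1]
    refine Prod.ext rfl (Prod.ext rfl ?_)
    change (0 : V 1 →L[ℝ] ℝ) (π b.1) - b.2.1 0 = 0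
    simp

/-- The jet group has no abelian factor: its centre lies in the kernel of the abelianization. -/
lemma jet_center (h : IsCarnot V π r) (a : Jet π h.hom) (ha : ∀ b, a * b = b * a) :
    jetProj V h.hom a = 0 := by
  have hc : ∀ b : Jet π h.hom, ⁅a, b⁆ = 1 := fun b => commutatorElement_eq_one_iff_mul_comm.2 (ha b)
  have hc2 : ∀ b : Jet π h.hom, a.2.1 (π b.1) - b.2.1 (π a.1) = 0 := by
    intro b
    have := hc b
    rw [jcomm] at this
    exact congrArg (fun b : E × ((V 1 →L[ℝ] ℝ) × ℝ) => b.2.2) this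
  refine Subtype.ext ?_
  rw [jetProj_val]
  have e1 : π a.1 = 0 := by
    by_contra hne
    obtain ⟨f, hf⟩ := SeparatingDual.exists_eq_one (R := ℝ) hne
    have := hc2 (mk 1 f 0)
    change a.2.1 (π 1) - f (π a.1) = 0 at this
    rw [pi_one (hπ := h.hom), map_zero, hf] at this
    norm_num at this
  have e2 : a.2.1 = 0 := by
    ext v
    have := hc2 (mk v 0 0)
    change a.2.1 (π (v : E)) - (0 : V 1 →L[ℝ] ℝ) (π a.1) = 0 at this
    rw [h.proj, _root_.zero_apply, sub_zero] at this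
    rw [this]
    rfl
  rw [e1, e2]
  rfl

end Pool.Agent.H41.CJ
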