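import Pool.Agent.H41.CJ.D
set_option autoImplicit false
namespace Pool.Agent.H41.CJ
open Set MeasureTheory
open scoped ContDiff commutatorElement ENNReal NNReal
variable {E : Type} [NormedAddCommGroup E] [NormedSpace ℝ E] [Group E]
variable {V : ℕ → Submodule ℝ E} {π : E →L[ℝ] V 1} {r : ℕ}

lemma acc {X Y : Type} [PseudoMetricSpace X] [PseudoMetricSpace Y] {φ : X → Y} {K : ℝ≥0}
    (hφ : LipschitzWith K φ) {γ : ℝ → X} (h : AbsolutelyContinuousOnInterval γ 0 1) :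
    AbsolutelyContinuousOnInterval (fun s => φ (γ s)) 0 1 := by
  unfold AbsolutelyContinuousOnInterval at h ⊢
  refine squeeze_zero (fun _ => Finset.sum_nonneg fun _ _ => dist_nonneg) (fun I => ?_)
    (by simpa using h.const_mul (K : ℝ))
  rw [Finset.mul_sum]
  exact Finset.sum_le_sum fun _ _ => hφ.dist_le_mul _ _

/-- The horizontal differential of a function. -/
noncomputable def hd (W : Submodule ℝ E) (f : E → ℝ) (x : E) : W →L[ℝ] ℝ :=
  (fderiv ℝ f x).comp ((fderiv ℝ (fun k : E => x * k) 1).comp W.subtypeL)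

variable {W : Submodule ℝ E} {f : E → ℝ}

lemma contDiff_lm (hm : ContDiff ℝ ∞ (fun p : E × E => p.1 * p.2)) :
    ContDiff ℝ ∞ (fun x : E => fderiv ℝ (fun k : E => x * k) 1) :=
  ContDiff.fderiv (f := fun x k : E => x * k) hm contDiff_const (by simp)

lemma contDiff_hd (hm : ContDiff ℝ ∞ (fun p : E × E => p.1 * p.2)) (hf : ContDiff ℝ ∞ f) :
    ContDiff ℝ ∞ (hd W f) :=
  (hf.fderiv_right (by simp)).clm_comp ((contDiff_lm hm).clm_comp contDiff_const)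

lemma hcs_hd (hc : HasCompactSupport f) : HasCompactSupport (hd W f) := by
  refine (hc.fderiv (𝕜 := ℝ)).mono ?_
  intro x hx hx'
  apply hx
  unfold hd
  rw [hx']
  rfl

lemma lip1 (hm : ContDiff ℝ ∞ (fun p : E × E => p.1 * p.2)) (hf : ContDiff ℝ ∞ f)
    (hc : HasCompactSupport f) : ∃ C : ℝ≥0, LipschitzWith C (hd W f) :=
  ContDiff.lipschitzWith_of_hasCompactSupport (𝕂 := ℝ) (E' := E) (F' := W →L[ℝ] ℝ)
    (f := hd W f) (n := ∞) (hcs_hd hc) (contDiff_hd hm hf) (by simp)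

omit [Group E] in
lemma lip2 (hf : ContDiff ℝ ∞ f)
    (hc : HasCompactSupport f) : ∃ C : ℝ≥0, LipschitzWith C f :=
  ContDiff.lipschitzWith_of_hasCompactSupport (𝕂 := ℝ) (E' := E) (F' := ℝ)
    (f := f) (n := ∞) hc hf (by simp)

lemma lb (hm : ContDiff ℝ ∞ (fun p : E × E => p.1 * p.2)) {K : Set E} (hK : IsCompact K) :
    ∃ C : ℝ, ∀ x ∈ K, ‖fderiv ℝ (fun k : E => x * k) 1‖ ≤ C :=
  hK.exists_bound_of_continuousOn (contDiff_lm hm).continuous.continuousOn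

lemma fd_le {C : ℝ≥0} (h : LipschitzWith C (hd W f)) (x w : E) :
    ‖fderiv ℝ (hd W f) x w‖ ≤ C * ‖w‖ := by
  have := norm_fderiv_le_of_lipschitz ℝ (E := E) (F := W →L[ℝ] ℝ) (x₀ := x) h
  exact (ContinuousLinearMap.le_of_opNorm_le _ this w)

/-- The contact transformation given by a function. -/
noncomputable def shear {hπ : ∀ x y : E, π (x * y) = π x + π y} (f : E → ℝ)
    (a : Jet π hπ) : Jet π hπ :=
  mk a.1 (a.2.1 + hd (V 1) f a.1) (a.2.2 + f a.1)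

lemma hd_neg (x : E) : hd W (fun y => - f y) x = - hd W f x := by
  unfold hd
  rw [show (fun y => - f y) = -f from rfl, fderiv_neg]
  rfl

lemma shear_neg {hπ : ∀ x y : E, π (x * y) = π x + π y} (a : Jet π hπ) :
    shear (fun y => - f y) (shear f a) = a := by
  refine Prod.ext rfl (Prod.ext ?_ ?_)
  · change a.2.1 + hd (V 1) f a.1 + hd (V 1) (fun y => - f y) a.1 = a.2.1
    rw [hd_neg]
    abel
  · change a.2.2 + f a.1 + - f a.1 = a.2.2
    abel

lemma shear_lip (h : IsCarnot V π r) (hf : ContDiff ℝ ∞ f) (hc : HasCompactSupport f) :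
    ∃ K : ℝ≥0, LipschitzWith K (shear f : Jet π h.hom → Jet π h.hom) := by
  obtain ⟨C1, h1⟩ := lip1 (W := V 1) h.smooth_mul hf hc
  obtain ⟨C2, h2⟩ := lip2 hf hc
  have e : LipschitzWith 1 (fun a : E × ((V 1 →L[ℝ] ℝ) × ℝ) => a.1) := LipschitzWith.prod_fst
  have e' : LipschitzWith 1 (fun a : E × ((V 1 →L[ℝ] ℝ) × ℝ) => a.2) := LipschitzWith.prod_snd
  have e2 : LipschitzWith (1 * 1) (fun a : E × ((V 1 →L[ℝ] ℝ) × ℝ) => a.2.1) :=
    LipschitzWith.comp (f := fun b : (V 1 →L[ℝ] ℝ) × ℝ => b.1) LipschitzWith.prod_fst e'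
  have e3 : LipschitzWith (1 * 1) (fun a : E × ((V 1 →L[ℝ] ℝ) × ℝ) => a.2.2) :=
    LipschitzWith.comp (f := fun b : (V 1 →L[ℝ] ℝ) × ℝ => b.2) LipschitzWith.prod_snd e'
  have k2 : LipschitzWith (1 * 1 + C1 * 1)
      (fun a : E × ((V 1 →L[ℝ] ℝ) × ℝ) => a.2.1 + hd (V 1) f a.1) := e2.add (h1.comp e)
  have k3 : LipschitzWith (1 * 1 + C2 * 1)
      (fun a : E × ((V 1 →L[ℝ] ℝ) × ℝ) => a.2.2 + f a.1) := e3.add (h2.comp e)
  exact ⟨_, e.prodMk (k2.prodMk k3)⟩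

lemma hd_bound (h : IsCarnot V π r) (hf : ContDiff ℝ ∞ f) (hc : HasCompactSupport f) :
    ∃ C : ℝ, 0 ≤ C ∧ ∀ (x v : E), ‖fderiv ℝ (hd (V 1) f) x (leftField v x)‖ ≤ C * ‖v‖ := by
  obtain ⟨C1, h1⟩ := lip1 (W := V 1) h.smooth_mul hf hc
  obtain ⟨C2, h2⟩ := lb h.smooth_mul (hcs_hd (W := V 1) hc)
  refine ⟨C1 * max C2 0, by positivity, fun x v => ?_⟩
  by_cases hx : x ∈ tsupport (hd (V 1) f)
  · refine (fd_le h1 x _).trans ?_
    rw [mul_assoc]
    refine mul_le_mul_of_nonneg_left ?_ C1.2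
    exact (ContinuousLinearMap.le_of_opNorm_le _ ((h2 x hx).trans (le_max_left _ 0)) v)
  · have h3 : fderiv ℝ (hd (V 1) f) x = 0 := by
      have h4 : hd (V 1) f =ᶠ[nhds x] fun _ => 0 := notMem_tsupport_iff_eventuallyEq.1 hx
      rw [h4.fderiv_eq]
      exact fderiv_const_apply _
    rw [h3]
    refine le_of_eq_of_le (norm_zero (E := V 1 →L[ℝ] ℝ)) ?_
    positivity

end Pool.Agent.H41.CJ
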