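import Pool.Agent.H41.CJ.F

set_option autoImplicit false

namespace Pool.Agent.H41.CJ

open Set MeasureTheory
open scoped ContDiff commutatorElement ENNReal NNReal

lemma gen_deriv {A B : Type} [NormedAddCommGroup A] [NormedSpace ℝ A] [NormedAddCommGroup B]
    [NormedSpace ℝ B] {γ : ℝ → A × (B × ℝ)} {s : ℝ} {a : A} {b : B} {c : ℝ}
    (hg : HasDerivAt γ (a, (b, c)) s) {H : A → B} {f : A → ℝ}
    (hH : DifferentiableAt ℝ H (γ s).1) (hf : DifferentiableAt ℝ f (γ s).1) :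
    HasDerivAt (fun s => (((γ s).1, ((γ s).2.1 + H (γ s).1, (γ s).2.2 + f (γ s).1)) :
      A × (B × ℝ))) (a, (b + fderiv ℝ H (γ s).1 a, c + fderiv ℝ f (γ s).1 a)) s := by
  have p1 : HasFDerivAt (fun v : A × (B × ℝ) => v.1) (ContinuousLinearMap.fst ℝ A (B × ℝ))
    (γ s) := hasFDerivAt_fst
  have p2 : HasFDerivAt (fun v : A × (B × ℝ) => v.2) (ContinuousLinearMap.snd ℝ A (B × ℝ))
    (γ s) := hasFDerivAt_snd
  have g1 : HasDerivAt (fun s => (γ s).1) a s := p1.comp_hasDerivAt s hg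
  have g0 : HasDerivAt (fun s => (γ s).2) (b, c) s := p2.comp_hasDerivAt s hg
  have p3 : HasFDerivAt (fun v : B × ℝ => v.1) (ContinuousLinearMap.fst ℝ B ℝ)
    (γ s).2 := hasFDerivAt_fst
  have p4 : HasFDerivAt (fun v : B × ℝ => v.2) (ContinuousLinearMap.snd ℝ B ℝ)
    (γ s).2 := hasFDerivAt_snd
  have g2 : HasDerivAt (fun s => (γ s).2.1) b s :=
    HasFDerivAt.comp_hasDerivAt (f := fun s => (γ s).2) (l := fun v : B × ℝ => v.1) s p3 g0
  have g3 : HasDerivAt (fun s => (γ s).2.2) c s :=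
    HasFDerivAt.comp_hasDerivAt (f := fun s => (γ s).2) (l := fun v : B × ℝ => v.2) s p4 g0
  have d1 : HasDerivAt (fun s => H (γ s).1) (fderiv ℝ H (γ s).1 a) s :=
    hH.hasFDerivAt.comp_hasDerivAt s g1
  have d2 : HasDerivAt (fun s => f (γ s).1) (fderiv ℝ f (γ s).1 a) s :=
    hf.hasFDerivAt.comp_hasDerivAt s g1
  exact g1.prodMk ((g2.add d1).prodMk (g3.add d2))

variable {E : Type} [NormedAddCommGroup E] [NormedSpace ℝ E] [Group E]
variable {V : ℕ → Submodule ℝ E} {π : E →L[ℝ] V 1} {r : ℕ}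

lemma shear_deriv (h : IsCarnot V π r) {f : E → ℝ} (hf : ContDiff ℝ ∞ f)
    {γ : ℝ → Jet π h.hom} {s : ℝ} {u : Jet π h.hom} (hu : u ∈ jetLayer V h.hom 1)
    (hg : HasDerivAt γ (leftField u (γ s)) s) :
    HasDerivAt (fun s => shear f (γ s))
      (leftField (mk u.1 (u.2.1 + fderiv ℝ (hd (V 1) f) (γ s).1 (leftField u.1 (γ s).1)) 0 :
        Jet π h.hom) (shear f (γ s))) s := by
  rw [lf h.smooth_mul] at hg
  rw [lf h.smooth_mul]
  rw [mem_layer] at hu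
  have key := gen_deriv (A := E) (B := V 1 →L[ℝ] ℝ) (γ := γ) (s := s) (a := leftField u.1 (γ s).1)
    (b := u.2.1) (c := u.2.2 + (γ s).2.1 (π u.1)) hg (H := hd (V 1) f) (f := f)
    (((contDiff_hd h.smooth_mul hf).differentiable (by simp)) (γ s).1)
    ((hf.differentiable (by simp)) (γ s).1)
  have e : (u.2.2 + (γ s).2.1 (π u.1)) + fderiv ℝ f (γ s).1 (leftField u.1 (γ s).1) =
      0 + ((γ s).2.1 + hd (V 1) f (γ s).1) (π u.1) := by
    have e1 : π u.1 = ⟨u.1, hu.1⟩ := h.proj ⟨u.1, hu.1⟩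
    rw [hu.2.2 (by norm_num), _root_.add_apply, add_assoc, e1]
    rfl
  rw [e] at key
  exact key

/-- The contact transformation is Lipschitz for the Carnot distance. -/
theorem shear_cc (h : IsCarnot V π r) {f : E → ℝ} (hf : ContDiff ℝ ∞ f)
    (hc : HasCompactSupport f) : ∃ L : ℝ≥0, ∀ a b : Jet π h.hom,
      ccDist (jetLayer V h.hom 1) (shear f a) (shear f b) ≤
        L * ccDist (jetLayer V h.hom 1) a b := by
  obtain ⟨C, hC0, hC⟩ := hd_bound h hf hc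
  obtain ⟨K, hK⟩ := shear_lip h hf hc
  refine ⟨Real.toNNReal (1 + C), fun a b => ?_⟩
  have t0 : ((Real.toNNReal (1 + C) : ℝ≥0) : ℝ≥0∞) ≠ 0 := by
    rw [Ne, ENNReal.coe_eq_zero, Real.toNNReal_eq_zero]
    linarith
  simp only [ccDist]
  simp only [ENNReal.mul_iInf_of_ne t0 ENNReal.coe_ne_top, le_iInf_iff]
  rintro γ u rfl rfl h1 h2
  have hmem : ∀ s, (mk (u s : Jet π h.hom).1 ((u s : Jet π h.hom).2.1 +
      fderiv ℝ (hd (V 1) f) (γ s).1 (leftField (u s : Jet π h.hom).1 (γ s).1)) 0 :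
        Jet π h.hom) ∈ jetLayer V h.hom 1 := fun s =>
    mem_layer.2 ⟨(mem_layer.1 (u s).2).1, fun hh => absurd rfl hh, fun _ => rfl⟩
  refine iInf_le_of_le (fun s => shear f (γ s)) (iInf_le_of_le (fun s => ⟨_, hmem s⟩)
    (iInf_le_of_le rfl (iInf_le_of_le rfl (iInf_le_of_le (acc hK h1) (iInf_le_of_le ?_ ?_)))))
  · filter_upwards [h2] with s hs hs'
    exact shear_deriv h hf (u s).2 (hs hs')
  · rw [← lintegral_const_mul' _ _ ENNReal.coe_ne_top]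
    refine lintegral_mono fun s => ?_
    rw [← ofReal_norm, ← ofReal_norm]
    change _ ≤ ENNReal.ofReal (1 + C) * ENNReal.ofReal ‖u s‖
    rw [← ENNReal.ofReal_mul (by linarith)]
    refine ENNReal.ofReal_le_ofReal ?_
    have n1 : ‖(u s : Jet π h.hom).1‖ ≤ ‖u s‖ :=
      norm_fst_le ((u s : Jet π h.hom) : E × ((V 1 →L[ℝ] ℝ) × ℝ))
    have n2 : ‖(u s : Jet π h.hom).2.1‖ ≤ ‖u s‖ :=
      (norm_fst_le (u s : Jet π h.hom).2).trans
        (norm_snd_le ((u s : Jet π h.hom) : E × ((V 1 →L[ℝ] ℝ) × ℝ)))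
    have n3 := hC (γ s).1 (u s : Jet π h.hom).1
    have n0 : 0 ≤ ‖u s‖ := norm_nonneg _
    change max ‖(u s : Jet π h.hom).1‖ (max ‖(u s : Jet π h.hom).2.1 +
      fderiv ℝ (hd (V 1) f) (γ s).1 (leftField (u s : Jet π h.hom).1 (γ s).1)‖ ‖(0 : ℝ)‖) ≤ _
    have n4 := norm_add_le (E := V 1 →L[ℝ] ℝ) (u s : Jet π h.hom).2.1
      (fderiv ℝ (hd (V 1) f) (γ s).1 (leftField (u s : Jet π h.hom).1 (γ s).1))
    have n5 : C * ‖(u s : Jet π h.hom).1‖ ≤ C * ‖u s‖ := mul_le_mul_of_nonneg_left n1 hC0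
    have n6 : (1 + C) * ‖u s‖ = ‖u s‖ + C * ‖u s‖ := by ring
    have n7 : 0 ≤ C * ‖u s‖ := mul_nonneg hC0 n0
    rw [n6, norm_zero]
    exact max_le (by linarith) (max_le (by linarith) (by linarith))

end Pool.Agent.H41.CJ
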