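import Pool.Agent.H41.CJ.D

set_option autoImplicit false

namespace Pool.Agent.H41.CJ

open Set
open scoped ContDiff commutatorElement

/-- The Heisenberg group of dimension `2 n + 1`. -/
def Heis (n : ℕ) : Type := (Fin n → ℝ) × (Fin n → ℝ) × ℝ

namespace Heis
variable {n : ℕ}

instance : TopologicalSpace (Heis n) :=
  inferInstanceAs (TopologicalSpace ((Fin n → ℝ) × (Fin n → ℝ) × ℝ))

/-- coordinates -/
def c (x y : Fin n → ℝ) (z : ℝ) : Heis n := (x, y, z)

noncomputable instance : Mul (Heis n) :=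
  ⟨fun a b => c (a.1 + b.1) (a.2.1 + b.2.1) (a.2.2 + b.2.2 + a.1 ⬝ᵥ b.2.1)⟩
noncomputable instance : One (Heis n) := ⟨c 0 0 0⟩
noncomputable instance : Inv (Heis n) := ⟨fun a => c (-a.1) (-a.2.1) (-a.2.2 + a.1 ⬝ᵥ a.2.1)⟩

lemma mul_def (a b : Heis n) :
    a * b = c (a.1 + b.1) (a.2.1 + b.2.1) (a.2.2 + b.2.2 + a.1 ⬝ᵥ b.2.1) := rfl

noncomputable instance : Group (Heis n) := .ofLeftAxioms
  (fun a b d => by
    refine Prod.ext (add_assoc a.1 b.1 d.1) (Prod.ext (add_assoc a.2.1 b.2.1 d.2.1) ?_)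
    change a.2.2 + b.2.2 + a.1 ⬝ᵥ b.2.1 + d.2.2 + (a.1 + b.1) ⬝ᵥ d.2.1 =
      a.2.2 + (b.2.2 + d.2.2 + b.1 ⬝ᵥ d.2.1) + a.1 ⬝ᵥ (b.2.1 + d.2.1)
    rw [add_dotProduct, dotProduct_add]
    ring)
  (fun a => by
    refine Prod.ext (zero_add a.1) (Prod.ext (zero_add a.2.1) ?_)
    change 0 + a.2.2 + (0 : Fin n → ℝ) ⬝ᵥ a.2.1 = a.2.2
    simp)
  (fun a => by
    refine Prod.ext (neg_add_cancel a.1) (Prod.ext (neg_add_cancel a.2.1) ?_)
    change -a.2.2 + a.1 ⬝ᵥ a.2.1 + a.2.2 + (-a.1) ⬝ᵥ a.2.1 = 0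
    rw [neg_dotProduct]
    ring)

lemma comm (a b : Heis n) : ⁅a, b⁆ = c 0 0 (a.1 ⬝ᵥ b.2.1 - b.1 ⬝ᵥ a.2.1) := by
  have h : a * b = c 0 0 (a.1 ⬝ᵥ b.2.1 - b.1 ⬝ᵥ a.2.1) * (b * a) := by
    refine Prod.ext ?_ (Prod.ext ?_ ?_)
    · change a.1 + b.1 = 0 + (b.1 + a.1)
      abel
    · change a.2.1 + b.2.1 = 0 + (b.2.1 + a.2.1)
      abel
    · change a.2.2 + b.2.2 + a.1 ⬝ᵥ b.2.1 = a.1 ⬝ᵥ b.2.1 - b.1 ⬝ᵥ a.2.1 +
        (b.2.2 + a.2.2 + b.1 ⬝ᵥ a.2.1) + (0 : Fin n → ℝ) ⬝ᵥ (b.2.1 + a.2.1)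
      rw [zero_dotProduct]
      ring
  rw [commutatorElement_def, h]
  group

lemma central (z : ℝ) (b : Heis n) : c 0 0 z * b = b * c 0 0 z := by
  refine Prod.ext ?_ (Prod.ext ?_ ?_)
  · change 0 + b.1 = b.1 + 0
    simp
  · change 0 + b.2.1 = b.2.1 + 0
    simp
  · change z + b.2.2 + (0 : Fin n → ℝ) ⬝ᵥ b.2.1 = b.2.2 + z + b.1 ⬝ᵥ (0 : Fin n → ℝ)
    rw [zero_dotProduct, dotProduct_zero]
    ring

end Heis

/-- `N` is not isomorphic, as a topological group, to the product of a Heisenberg group and another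
group. -/
def NoHeisenbergFactor (N : Type) [TopologicalSpace N] [Group N] : Prop :=
  ∀ (n : ℕ), 1 ≤ n → ∀ (K : Type) [TopologicalSpace K] [Group K],
    ¬ ∃ φ : Heis n × K ≃* N, Continuous φ ∧ Continuous φ.symm

variable {E : Type} [NormedAddCommGroup E] [NormedSpace ℝ E] [Group E]
variable {V : ℕ → Submodule ℝ E} {π : E →L[ℝ] V 1} {r : ℕ}

theorem noHeis [FiniteDimensional ℝ E] (h : IsCarnot V π r) (hr : 2 ≤ r) :
    NoHeisenbergFactor (Jet π h.hom) := by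
  rintro n hn K _ _ ⟨φ, hφ, hc⟩
  let A : Heis n → Jet π h.hom := fun a => φ (a, 1)
  have hcom : ∀ (a d : Heis n) (k : K), ⁅A a, φ (d, k)⁆ = A ⁅a, d⁆ := by
    intro a d k
    change ⁅φ (a, 1), φ (d, k)⁆ = φ (⁅a, d⁆, 1)
    rw [← map_commutatorElement]
    congr 1
    refine Prod.ext rfl ?_
    change ⁅(1 : K), k⁆ = 1
    simp
  have hsplit : ∀ (d : Heis n) (k : K), φ (d, k) = A d * φ (1, k) := by
    intro d k
    change φ (d, k) = φ (d, 1) * φ (1, k)
    rw [← map_mul]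
    congr 1
    refine Prod.ext ?_ ?_
    · change d = d * 1
      rw [mul_one]
    · change k = 1 * k
      rw [one_mul]
  have step1 : ∃ a, π (A a).1 ≠ 0 := by
    by_contra hne
    push Not at hne
    have hal : ∀ a, (A a).2.1 = 0 := by
      intro a
      ext v
      obtain ⟨⟨d, k⟩, hdk⟩ := φ.surjective (mk (v : E) 0 0)
      have e1 : π (mk (v : E) 0 0 : Jet π h.hom).1 = π (A d).1 + π (φ (1, k)).1 := by
        rw [← hdk, hsplit, ← h.hom]
        rfl
      have e2 : π (mk (v : E) 0 0 : Jet π h.hom).1 = v := h.proj v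
      rw [e2, hne, zero_add] at e1
      have e3 := hcom a 1 k
      rw [commutatorElement_one_right, jcomm] at e3
      have e4 := congrArg (fun b : E × ((V 1 →L[ℝ] ℝ) × ℝ) => b.2.2) e3
      change (A a).2.1 (π (φ (1, k)).1) - (φ (1, k)).2.1 (π (A a).1) = (A 1).2.2 at e4
      have e5 : A 1 = 1 := map_one φ
      rw [e5, hne, map_zero, sub_zero, ← e1] at e4
      rw [e4]
      rfl
    let i : Fin n := ⟨0, hn⟩
    let e : Heis n := Heis.c (Pi.single i 1) 0 0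
    let f : Heis n := Heis.c 0 (Pi.single i 1) 0
    have h1 : A e ∈ commutator (Jet π h.hom) := by
      rw [← jet_ker h]
      refine Subtype.ext ?_
      rw [jetProj_val, hne, hal]
      rfl
    have h2 : commutator (Jet π h.hom) ≤ Subgroup.centralizer {A f} := by
      rw [commutator_def]
      refine Subgroup.commutator_le.2 fun X _ Y _ => ?_
      rw [Subgroup.mem_centralizer_singleton_iff]
      obtain ⟨⟨d, k⟩, rfl⟩ := φ.surjective X
      obtain ⟨⟨d', k'⟩, rfl⟩ := φ.surjective Y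
      rw [← map_commutatorElement]
      change φ ⁅(d, k), (d', k')⁆ * φ (f, 1) = φ (f, 1) * φ ⁅(d, k), (d', k')⁆
      rw [← map_mul, ← map_mul]
      congr 1
      refine Prod.ext ?_ ?_
      · change ⁅d, d'⁆ * f = f * ⁅d, d'⁆
        rw [Heis.comm, Heis.central]
      · change ⁅k, k'⁆ * 1 = 1 * ⁅k, k'⁆
        rw [mul_one, one_mul]
    have h3 := h2 h1
    rw [Subgroup.mem_centralizer_singleton_iff] at h3
    change φ (e, 1) * φ (f, 1) = φ (f, 1) * φ (e, 1) at h3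
    rw [← map_mul, ← map_mul] at h3
    have h4 := congrArg (fun p : Heis n × K => p.1.2.2) (φ.injective h3)
    change (0 : ℝ) + 0 + (Pi.single i 1 : Fin n → ℝ) ⬝ᵥ Pi.single i 1 =
      0 + 0 + (0 : Fin n → ℝ) ⬝ᵥ 0 at h4
    simp at h4
  obtain ⟨a, ha⟩ := step1
  obtain ⟨g, hg⟩ := SeparatingDual.exists_eq_one (R := ℝ) ha
  have hX : ∀ t : ℝ, ⁅A a, (mk 1 (-(t • g)) 0 : Jet π h.hom)⁆ = mk 1 0 t := by
    intro t
    rw [jcomm]
    refine Prod.ext ?_ (Prod.ext rfl ?_)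
    · change ⁅(A a).1, (1 : E)⁆ = 1
      simp
    · change (A a).2.1 (π 1) - (-(t • g)) (π (A a).1) = t
      rw [pi_one (hπ := h.hom), map_zero, _root_.neg_apply, _root_.smul_apply, hg]
      simp
  have hS : ∀ t : ℝ, φ.symm (mk 1 0 t) = (Heis.c 0 0 (φ.symm (mk 1 0 t)).1.2.2, 1) := by
    intro t
    obtain ⟨⟨d, k⟩, hdk⟩ := φ.surjective (mk 1 (-(t • g)) 0)
    have e1 : φ.symm (mk 1 0 t) = (⁅a, d⁆, 1) := by
      rw [← hX t, ← hdk, hcom]
      exact φ.symm_apply_apply _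
    rw [e1, Heis.comm]
    rfl
  let θ : ℝ →+ ℝ := AddMonoidHom.mk' (fun t => (φ.symm (mk 1 0 t)).1.2.2) (by
    intro s t
    have e1 : (mk 1 0 (s + t) : Jet π h.hom) = mk 1 0 s * mk 1 0 t := by
      refine Prod.ext ?_ (Prod.ext ?_ ?_)
      · change (1 : E) = 1 * 1
        simp
      · change (0 : V 1 →L[ℝ] ℝ) = 0 + 0
        simp
      · change s + t = s + t + (0 : V 1 →L[ℝ] ℝ) (π 1)
        simp
    rw [e1, map_mul, hS s, hS t]
    change (φ.symm (mk 1 0 s)).1.2.2 + (φ.symm (mk 1 0 t)).1.2.2 + (0 : Fin n → ℝ) ⬝ᵥ 0 = _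
    rw [zero_dotProduct, add_zero]
    rfl)
  have hθ : Continuous θ := by
    have c1 : Continuous (fun t : ℝ => (mk 1 0 t : Jet π h.hom)) := by
      have : Continuous (fun t : ℝ => ((1, (0, t)) : E × ((V 1 →L[ℝ] ℝ) × ℝ))) :=
        continuous_const.prodMk (continuous_const.prodMk continuous_id)
      exact this
    have c2 : Continuous (fun p : Heis n × K => p.1.2.2) := by
      have : Continuous (fun p : ((Fin n → ℝ) × (Fin n → ℝ) × ℝ) × K => p.1.2.2) := by fun_prop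
      exact this
    exact c2.comp (hc.comp c1)
  have hlin : ∀ t : ℝ, θ t = t * θ 1 := by
    intro t
    have := map_real_smul θ hθ t 1
    simpa using this
  have hθ1 : θ 1 ≠ 0 := by
    intro h0
    have e1 : φ.symm (mk 1 0 1) = 1 := by
      rw [hS 1]
      change (Heis.c 0 0 (θ 1), (1 : K)) = 1
      rw [h0]
      rfl
    have e2 : (mk 1 0 1 : Jet π h.hom) = 1 := by
      rw [← φ.apply_symm_apply (mk 1 0 1), e1, map_one]
    exact one_ne_zero (congrArg (fun b : E × ((V 1 →L[ℝ] ℝ) × ℝ) => b.2.2) e2)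
  have hU : ∀ w, A (Heis.c 0 0 w) = mk 1 0 (w / θ 1) := by
    intro w
    rw [← φ.apply_symm_apply (mk 1 0 (w / θ 1)), hS]
    change φ (Heis.c 0 0 w, 1) = φ (Heis.c 0 0 (θ (w / θ 1)), 1)
    rw [hlin, div_mul_cancel₀ _ hθ1]
  have hcen : ∀ (b : Heis n) (q : E), ⁅(A b).1, q⁆ = 1 := by
    intro b q
    obtain ⟨⟨d, k⟩, hdk⟩ := φ.surjective (mk q 0 0)
    have e1 := hcom b d k
    rw [hdk, jcomm, Heis.comm, hU] at e1
    exact congrArg (fun b : E × ((V 1 →L[ℝ] ℝ) × ℝ) => b.1) e1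
  have hπA : ∀ b b' : Heis n, π (A (b * b')).1 = π (A b).1 + π (A b').1 := by
    intro b b'
    have e1 : A (b * b') = A b * A b' := by
      change φ (b * b', 1) = φ (b, 1) * φ (b', 1)
      rw [← map_mul]
      congr 1
      exact Prod.ext rfl (one_mul _).symm
    rw [e1, ← h.hom]
    rfl
  have hπc : ∀ w, π (A (Heis.c 0 0 w)).1 = 0 := by
    intro w
    rw [hU]
    exact pi_one (hπ := h.hom)
  let Λ₀ : (Fin n → ℝ) × (Fin n → ℝ) →+ V 1 :=
    AddMonoidHom.mk' (fun p => π (A (Heis.c p.1 p.2 0)).1) (by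
      intro p p'
      have e1 : Heis.c p.1 p.2 0 * Heis.c p'.1 p'.2 0 =
          Heis.c (p + p').1 (p + p').2 0 * Heis.c 0 0 (p.1 ⬝ᵥ p'.2) := by
        refine Prod.ext ?_ (Prod.ext ?_ ?_)
        · change p.1 + p'.1 = p.1 + p'.1 + 0
          rw [add_zero]
        · change p.2 + p'.2 = p.2 + p'.2 + 0
          rw [add_zero]
        · change (0 : ℝ) + 0 + p.1 ⬝ᵥ p'.2 = 0 + p.1 ⬝ᵥ p'.2 + (p.1 + p'.1) ⬝ᵥ (0 : Fin n → ℝ)
          rw [dotProduct_zero]
          ring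
      have e2 := hπA (Heis.c p.1 p.2 0) (Heis.c p'.1 p'.2 0)
      rw [e1, hπA, hπc, add_zero] at e2
      exact e2)
  have hΛ₀ : Continuous Λ₀ := by
    have c1 : Continuous (fun p : (Fin n → ℝ) × (Fin n → ℝ) => (Heis.c p.1 p.2 0, (1 : K))) := by
      have : Continuous (fun p : (Fin n → ℝ) × (Fin n → ℝ) =>
          (((p.1, p.2, 0) : (Fin n → ℝ) × (Fin n → ℝ) × ℝ), (1 : K))) := by fun_prop
      exact this
    have c2 : Continuous (fun a : Jet π h.hom => π a.1) := by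
      have : Continuous (fun a : E × ((V 1 →L[ℝ] ℝ) × ℝ) => π a.1) := by fun_prop
      exact this
    exact c2.comp (hφ.comp c1)
  let Λ : (Fin n → ℝ) × (Fin n → ℝ) →L[ℝ] V 1 := Λ₀.toRealLinearMap hΛ₀
  have hΛ : ∀ b : Heis n, π (A b).1 = Λ (b.1, b.2.1) := by
    intro b
    have e1 : b = Heis.c b.1 b.2.1 0 * Heis.c 0 0 b.2.2 := by
      refine Prod.ext ?_ (Prod.ext ?_ ?_)
      · change b.1 = b.1 + 0
        rw [add_zero]
      · change b.2.1 = b.2.1 + 0
        rw [add_zero]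
      · change b.2.2 = 0 + b.2.2 + b.1 ⬝ᵥ (0 : Fin n → ℝ)
        rw [dotProduct_zero]
        ring
    have e2 := hπA (Heis.c b.1 b.2.1 0) (Heis.c 0 0 b.2.2)
    rw [← e1, hπc, add_zero] at e2
    exact e2
  have hR : LinearMap.range (Λ : (Fin n → ℝ) × (Fin n → ℝ) →ₗ[ℝ] V 1) = ⊤ := by
    by_contra hne
    obtain ⟨f, hf, hle⟩ := Submodule.exists_le_ker_of_lt_top _ (lt_top_iff_ne_top.2 hne)
    let β : V 1 →L[ℝ] ℝ := LinearMap.toContinuousLinearMap f
    have hβΛ : ∀ b : Heis n, β (π (A b).1) = 0 := by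
      intro b
      rw [hΛ]
      exact hle ⟨_, rfl⟩
    obtain ⟨⟨c, k⟩, hck⟩ := φ.surjective (mk 1 β 0)
    have hc1 : ∀ b : Heis n, ⁅b, c⁆ = 1 := by
      intro b
      have e1 := hcom b c k
      rw [hck, jcomm] at e1
      have e2 : A ⁅b, c⁆ = 1 := by
        rw [← e1]
        refine Prod.ext ?_ (Prod.ext rfl ?_)
        · change ⁅(A b).1, (1 : E)⁆ = 1
          simp
        · change (A b).2.1 (π 1) - β (π (A b).1) = 0
          rw [pi_one (hπ := h.hom), map_zero, hβΛ, sub_zero]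
      have e3 : φ (⁅b, c⁆, 1) = φ 1 := by
        rw [map_one]
        exact e2
      exact congrArg Prod.fst (φ.injective e3)
    have hβ0 : ∀ q : E, β (π q) = 0 := by
      intro q
      obtain ⟨⟨d, l⟩, hdl⟩ := φ.surjective (mk q 0 0)
      have e1 : ⁅(mk 1 β 0 : Jet π h.hom), (mk q 0 0 : Jet π h.hom)⁆ = mk 1 0 (β (π q)) := by
        rw [jcomm]
        refine Prod.ext ?_ (Prod.ext rfl ?_)
        · change ⁅(1 : E), q⁆ = 1
          simp
        · change β (π q) - (0 : V 1 →L[ℝ] ℝ) (π 1) = β (π q)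
          simp
      have e2 : φ ⁅(c, k), (d, l)⁆ = mk 1 0 (β (π q)) := by
        rw [map_commutatorElement, hck, hdl, e1]
      have e3 : ⁅(c, k), (d, l)⁆ = φ.symm (mk 1 0 (β (π q))) := by
        rw [← e2, MulEquiv.symm_apply_apply]
      rw [hS] at e3
      have e4 : ⁅c, d⁆ = Heis.c 0 0 (θ (β (π q))) := congrArg Prod.fst e3
      have e5 : ⁅c, d⁆ = 1 := by
        rw [← commutatorElement_inv, hc1, inv_one]
      rw [e5] at e4
      have e6 : (0 : ℝ) = θ (β (π q)) :=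
        congrArg (fun b : (Fin n → ℝ) × (Fin n → ℝ) × ℝ => b.2.2) e4
      rw [hlin] at e6
      rcases mul_eq_zero.1 e6.symm with e7 | e7
      · exact e7
      · exact absurd e7 hθ1
    refine hf (LinearMap.ext fun v => ?_)
    have e1 := hβ0 (v : E)
    rw [h.proj] at e1
    exact e1
  have hdec : ∀ x : E, ∃ p y : E, x = p * y ∧ (∀ q : E, ⁅p, q⁆ = 1) ∧ y ∈ commutator E := by
    intro x
    have h1 : π x ∈ LinearMap.range (Λ : (Fin n → ℝ) × (Fin n → ℝ) →ₗ[ℝ] V 1) := by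
      rw [hR]
      exact Submodule.mem_top
    obtain ⟨p, hp⟩ := h1
    refine ⟨(A (Heis.c p.1 p.2 0)).1, (A (Heis.c p.1 p.2 0)).1⁻¹ * x, by group,
      hcen (Heis.c p.1 p.2 0), ?_⟩
    rw [← h.ker, h.hom, pi_inv (hπ := h.hom), hΛ, ← hp]
    change -Λ p + Λ p = 0
    simp
  have hperf : commutator E ≤ ⁅commutator E, commutator E⁆ := by
    conv_lhs => rw [commutator_def]
    refine Subgroup.commutator_le.2 fun x _ x' _ => ?_
    obtain ⟨p, y, rfl, hp, hy⟩ := hdec x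
    obtain ⟨p', y', rfl, hp', hy'⟩ := hdec x'
    have c1 : ∀ q : E, p * q = q * p := fun q => commutatorElement_eq_one_iff_mul_comm.1 (hp q)
    have c2 : ∀ q : E, p' * q = q * p' := fun q => commutatorElement_eq_one_iff_mul_comm.1 (hp' q)
    have e1 : ⁅p * y, p' * y'⁆ = ⁅y, y'⁆ := by
      have e2 : (p * y) * (p' * y') = ⁅y, y'⁆ * ((p' * y') * (p * y)) := by
        have e3 : (p * y) * (p' * y') = p * (p' * (y * y')) := by
          rw [mul_assoc, ← mul_assoc y, ← c2 y, mul_assoc]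
        have e4 : (p' * y') * (p * y) = p * (p' * (y' * y)) := by
          rw [mul_assoc, ← mul_assoc y', ← c1 y', mul_assoc, ← mul_assoc p', ← c1 p', mul_assoc]
        have e5 : y * y' = ⁅y, y'⁆ * (y' * y) := by
          rw [commutatorElement_def]
          group
        rw [e3, e4, ← mul_assoc ⁅y, y'⁆, ← c1 ⁅y, y'⁆, mul_assoc p, ← mul_assoc ⁅y, y'⁆,
          ← c2 ⁅y, y'⁆, mul_assoc p', ← e5]
      rw [commutatorElement_def (p * y), e2]
      group
    rw [e1]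
    exact Subgroup.commutator_mem_commutator hy hy'
  have hall : ∀ m, commutator E ≤ (⊤ : Subgroup E).lowerCentralSeries m := by
    intro m
    induction m with
    | zero => exact le_top
    | succ m ih =>
      refine hperf.trans ?_
      rw [Subgroup.lowerCentralSeries_succ]
      exact Subgroup.commutator_mono ih le_top
  refine h.lower (le_bot_iff.1 ?_)
  rw [← h.nilp]
  refine le_trans ?_ (hall r)
  rw [← Subgroup.top_lowerCentralSeries_one]
  exact Subgroup.lowerCentralSeries_antitone _ (by omega)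

end Pool.Agent.H41.CJ
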