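import Pool.Agent.H41.CJ.G
import Pool.Agent.H41.CJ.H

set_option autoImplicit false

namespace Pool.Agent.H41.CJ

open Set MeasureTheory
open scoped ContDiff commutatorElement ENNReal NNReal Pointwise

variable {E : Type} [NormedAddCommGroup E] [NormedSpace ℝ E] [Group E]
variable {V : ℕ → Submodule ℝ E} {π : E →L[ℝ] V 1} {r : ℕ}

lemma exists_fun [FiniteDimensional ℝ E] (h : IsCarnot V π r) {z : E} (hz : z ≠ 1) :
    ∃ f : E → ℝ, ContDiff ℝ ∞ f ∧ HasCompactSupport f ∧ hd (V 1) f 1 ≠ 0 ∧ hd (V 1) f z = 0 := by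
  obtain ⟨v, hv, hv0⟩ := Submodule.exists_mem_ne_zero_of_ne_bot h.V1_ne
  have hv' : (⟨v, hv⟩ : V 1) ≠ 0 := fun h => hv0 (congrArg Subtype.val h)
  obtain ⟨g, hg⟩ := SeparatingDual.exists_eq_one (R := ℝ) hv'
  have hd0 : 0 < dist z 1 := dist_pos.2 hz
  let χ : ContDiffBump (1 : E) := ⟨dist z 1 / 4, dist z 1 / 2, by linarith, by linarith⟩
  have hf : ContDiff ℝ ∞ (fun x => χ x * g (π x)) :=
    χ.contDiff.mul ((g.comp π).contDiff)
  have hc : HasCompactSupport (fun x => χ x * g (π x)) := χ.hasCompactSupport.mul_right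
  refine ⟨_, hf, hc, ?_, ?_⟩
  · intro h0
    have e1 : (fun x => χ x * g (π x)) =ᶠ[nhds 1] fun x => (g.comp π) x := by
      filter_upwards [χ.eventuallyEq_one] with x hx
      rw [hx]
      simp
    have e2 : fderiv ℝ (fun x => χ x * g (π x)) 1 = g.comp π := by
      rw [e1.fderiv_eq]
      exact (g.comp π).fderiv
    have e3 := DFunLike.congr_fun h0 (⟨v, hv⟩ : V 1)
    unfold hd at e3
    rw [e2] at e3
    change g (π (fderiv ℝ (fun k : E => 1 * k) 1 v)) = 0 at e3
    have e4 : fderiv ℝ (fun k : E => 1 * k) 1 v = v := by simp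
    have e5 : π v = ⟨v, hv⟩ := h.proj ⟨v, hv⟩
    rw [e4, e5, hg] at e3
    exact one_ne_zero e3
  · have e1 : (fun x => χ x * g (π x)) =ᶠ[nhds z] fun _ => (0 : ℝ) := by
      have : z ∉ tsupport (χ : E → ℝ) := by
        rw [χ.tsupport_eq, Metric.mem_closedBall, not_le]
        change dist z 1 / 2 < dist z 1
        linarith
      filter_upwards [notMem_tsupport_iff_eventuallyEq.1 this] with x hx
      rw [hx]
      simp
    unfold hd
    rw [e1.fderiv_eq, fderiv_const_apply]
    rfl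

/-- The Carnot distance of a Carnot group is multiplied by at most `L` by `F` and its inverse. -/
def IsBiLipschitz {N : Type} [NormedAddCommGroup N] [NormedSpace ℝ N] [Group N]
    (W : Submodule ℝ N) (F : N ≃ N) : Prop :=
  ∃ L : ℝ≥0, ∀ a b : N, ccDist W (F a) (F b) ≤ L * ccDist W a b ∧
    ccDist W a b ≤ L * ccDist W (F a) (F b)

/-- `F` permutes the left cosets of `N_i`. -/
def PermutesCosets {N : Type} [Group N] (F : N ≃ N) (i : ℕ) : Prop :=
  ∀ g : N, ∃ b : N, F '' (g • ((⊤ : Subgroup N).lowerCentralSeries (i - 1) : Set N)) =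
    b • ((⊤ : Subgroup N).lowerCentralSeries (i - 1) : Set N)

theorem jet_violates [FiniteDimensional ℝ E] (h : IsCarnot V π r) (hr : 2 ≤ r) :
    ∃ F : Jet π h.hom ≃ Jet π h.hom, IsBiLipschitz (jetLayer V h.hom 1) F ∧
      ∀ i, 2 ≤ i → i ≤ r → ¬ PermutesCosets F i := by
  obtain ⟨⟨z, hz⟩, hz1⟩ := Subgroup.ne_bot_iff_exists_ne_one.1 h.lower
  have hz1' : z ≠ 1 := fun hh => hz1 (Subtype.ext hh)
  obtain ⟨f, hf, hc, hf1, hfz⟩ := exists_fun h hz1'
  let F : Jet π h.hom ≃ Jet π h.hom := ⟨shear f, shear (fun y => - f y), fun a => shear_neg a,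
    fun a => by
      have := shear_neg (V := V) (π := π) (hπ := h.hom) (f := fun y => - f y) a
      simpa using this⟩
  obtain ⟨L1, h1⟩ := shear_cc h hf hc
  obtain ⟨L2, h2⟩ := shear_cc h (f := fun y => - f y) hf.neg
    (by
      have : HasCompactSupport (-f) := hc.neg
      exact this)
  refine ⟨F, ⟨max L1 L2, fun a b => ⟨?_, ?_⟩⟩, fun i hi hir hp => ?_⟩
  · refine (h1 a b).trans ?_
    gcongr
    exact le_max_left _ _
  · have h3 := h2 (F a) (F b)
    change ccDist _ (F.symm (F a)) (F.symm (F b)) ≤ _ at h3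
    rw [F.symm_apply_apply, F.symm_apply_apply] at h3
    refine h3.trans ?_
    gcongr
    exact le_max_right _ _
  · have hle : (⊤ : Subgroup (Jet π h.hom)).lowerCentralSeries (i - 1) ≤
        commutator (Jet π h.hom) := by
      rw [← Subgroup.top_lowerCentralSeries_one]
      exact Subgroup.lowerCentralSeries_antitone _ (by omega)
    obtain ⟨w, hw1, hw2⟩ := exists_lift (π := π) (hπ := h.hom) (r - 1) hz
    have hw3 : w ∈ (⊤ : Subgroup (Jet π h.hom)).lowerCentralSeries (i - 1) :=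
      Subgroup.lowerCentralSeries_antitone _ (by omega) hw2
    obtain ⟨b, hb⟩ := hp 1
    rw [one_smul] at hb
    have key : ∀ x ∈ (⊤ : Subgroup (Jet π h.hom)).lowerCentralSeries (i - 1),
        (F x).2.1 = b.2.1 := by
      intro x hx
      have : F x ∈ b • ((⊤ : Subgroup (Jet π h.hom)).lowerCentralSeries (i - 1) :
        Set (Jet π h.hom)) := by
        rw [← hb]
        exact ⟨x, hx, rfl⟩
      obtain ⟨y, hy, hyx⟩ := this
      have e1 : (F x).2.1 = b.2.1 + y.2.1 := by
        rw [← hyx]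
        rfl
      rw [e1, al_comm (hle hy), add_zero]
    have k1 := key 1 (one_mem _)
    have k2 := key w hw3
    rw [← k2] at k1
    change (0 : V 1 →L[ℝ] ℝ) + hd (V 1) f 1 = w.2.1 + hd (V 1) f w.1 at k1
    rw [hw1, hfz, al_comm (hle hw3), zero_add, zero_add] at k1
    exact hf1 k1

end Pool.Agent.H41.CJ
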