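import Pool.Agent.H41.CJ.A

set_option autoImplicit false

namespace Pool.Agent.H41.CJ.Fil

open Set Finset
open scoped ContDiff commutatorElement

/-- The shift of the coordinates. -/
noncomputable def S (r : ℕ) : (Fin r → ℝ) →L[ℝ] (Fin r → ℝ) :=
  LinearMap.toContinuousLinearMap
  { toFun := fun w k => if h : 0 < (k : ℕ) then w ⟨k - 1, by omega⟩ else 0
    map_add' := fun u v => by
      funext k
      simp only [Pi.add_apply]
      split_ifs <;> simp
    map_smul' := fun c v => by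
      funext k
      simp only [Pi.smul_apply, smul_eq_mul, RingHom.id_apply]
      split_ifs <;> simp }

variable {r : ℕ}

lemma S_apply (w : Fin r → ℝ) (k : Fin r) :
    S r w k = if h : 0 < (k : ℕ) then w ⟨k - 1, by omega⟩ else 0 := rfl

lemma S_pow (i : ℕ) (w : Fin r → ℝ) (k : Fin r) :
    (S r ^ i) w k = if h : i ≤ (k : ℕ) then w ⟨k - i, by omega⟩ else 0 := by
  induction i generalizing k with
  | zero => simp
  | succ i ih =>
    rw [pow_succ']
    change S r ((S r ^ i) w) k = _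
    rw [S_apply]
    by_cases hk : 0 < (k : ℕ)
    · rw [dif_pos hk, ih]
      by_cases h1 : i + 1 ≤ (k : ℕ)
      · rw [dif_pos h1, dif_pos (by simp; omega)]
        congr 1
        ext
        simp
        omega
      · rw [dif_neg h1, dif_neg (by simp; omega)]
    · rw [dif_neg hk, dif_neg (by omega)]

lemma S_pow_r : S r ^ r = 0 := by
  ext w k
  rw [S_pow, dif_neg (by omega)]
  rfl

/-- The action of the line. -/
noncomputable def al (r : ℕ) (x : ℝ) : (Fin r → ℝ) →L[ℝ] (Fin r → ℝ) :=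
  ∑ i ∈ range r, ((i.factorial : ℝ)⁻¹ * x ^ i) • S r ^ i

lemma al_eq_exp (x : ℝ) : al r x = IsNilpotent.exp (x • S r) := by
  rw [IsNilpotent.exp_eq_sum (k := r) (by rw [smul_pow, S_pow_r, smul_zero])]
  unfold al
  refine Finset.sum_congr rfl fun i _ => ?_
  rw [smul_pow, mul_smul]
  ext w k
  simp only [_root_.smul_apply, Pi.smul_apply, smul_eq_mul]
  rw [Rat.smul_def]
  push_cast
  ring

lemma al_add (x y : ℝ) : al r (x + y) = al r x * al r y := by
  rw [al_eq_exp, al_eq_exp, al_eq_exp, add_smul]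
  refine IsNilpotent.exp_add_of_commute ?_ ⟨r, by rw [smul_pow, S_pow_r, smul_zero]⟩
    ⟨r, by rw [smul_pow, S_pow_r, smul_zero]⟩
  exact ((Commute.refl (S r)).smul_left x).smul_right y

lemma al_zero : al r 0 = 1 := by
  rw [al_eq_exp, zero_smul, IsNilpotent.exp_zero]

lemma al_add' (x y : ℝ) (w : Fin r → ℝ) : al r (x + y) w = al r x (al r y w) := by
  rw [al_add]
  rfl

lemma al_contDiff : ContDiff ℝ ∞ (fun p : ℝ × (Fin r → ℝ) => al r p.1 p.2) := by
  unfold al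
  simp only [_root_.sum_apply, _root_.smul_apply]
  fun_prop

lemma al_apply (x : ℝ) (w : Fin r → ℝ) (k : Fin r) :
    al r x w k = ∑ i ∈ range r, ((i.factorial : ℝ)⁻¹ * x ^ i) *
      (if h : i ≤ (k : ℕ) then w ⟨k - i, by omega⟩ else 0) := by
  unfold al
  rw [_root_.sum_apply, Finset.sum_apply]
  refine Finset.sum_congr rfl fun i _ => ?_
  rw [_root_.smul_apply, Pi.smul_apply, S_pow, smul_eq_mul]

lemma al_apply_zero (hr : 0 < r) (x : ℝ) (w : Fin r → ℝ) : al r x w ⟨0, hr⟩ = w ⟨0, hr⟩ := by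
  rw [al_apply, Finset.sum_eq_single 0]
  · simp
  · intro i _ hi
    rw [dif_neg (by simp; omega), mul_zero]
  · intro h
    exact absurd (Finset.mem_range.2 hr) h

lemma al_apply_one (hr : 1 < r) (x : ℝ) (w : Fin r → ℝ) :
    al r x w ⟨1, hr⟩ = w ⟨1, hr⟩ + x * w ⟨0, by omega⟩ := by
  rw [al_apply, Finset.sum_eq_add (0 : ℕ) 1 (by norm_num)]
  · simp
  · intro i _ hi
    rw [dif_neg (by simp; omega), mul_zero]
  · intro h
    exact absurd (Finset.mem_range.2 (by omega)) h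
  · intro h
    exact absurd (Finset.mem_range.2 hr) h

/-- The quotient of `al 1 - 1` by the shift. -/
noncomputable def T (r : ℕ) : (Fin r → ℝ) →L[ℝ] (Fin r → ℝ) :=
  ∑ i ∈ range r, (((i + 1).factorial : ℝ)⁻¹) • S r ^ i

lemma al_sub_one : al r 1 - 1 = S r * T r := by
  have h1 : ∑ i ∈ range (r + 1), ((i.factorial : ℝ)⁻¹ * 1 ^ i) • S r ^ i = al r 1 := by
    rw [Finset.sum_range_succ, S_pow_r, smul_zero, add_zero]
    rfl
  rw [Finset.sum_range_succ'] at h1
  rw [← h1]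
  unfold T
  rw [Finset.mul_sum]
  simp only [one_pow, mul_one, pow_zero, Nat.factorial_zero, Nat.cast_one, inv_one, one_smul,
    add_sub_cancel_right]
  refine Finset.sum_congr rfl fun i _ => ?_
  rw [pow_succ', mul_smul_comm]

lemma T_commute : Commute (S r) (T r) := by
  unfold T
  refine Commute.sum_right _ _ _ fun i _ => ?_
  exact ((Commute.refl (S r)).pow_right i).smul_right _

lemma T_unit (hr : 1 ≤ r) : IsUnit (T r) := by
  have h1 : T r = 1 + ∑ i ∈ range (r - 1), (((i + 2).factorial : ℝ)⁻¹) • S r ^ (i + 1) := by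
    unfold T
    obtain ⟨m, rfl⟩ : ∃ m, r = m + 1 := ⟨r - 1, by omega⟩
    rw [Finset.sum_range_succ']
    simp only [Nat.add_sub_cancel, zero_add, Nat.factorial_one, Nat.cast_one, inv_one, one_smul,
      pow_zero]
    exact add_comm _ _
  rw [h1]
  refine IsNilpotent.isUnit_one_add ?_
  refine ⟨r, ?_⟩
  have h2 : ∑ i ∈ range (r - 1), (((i + 2).factorial : ℝ)⁻¹) • S r ^ (i + 1) =
      S r * ∑ i ∈ range (r - 1), (((i + 2).factorial : ℝ)⁻¹) • S r ^ i := by
    rw [Finset.mul_sum]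
    refine Finset.sum_congr rfl fun i _ => ?_
    rw [pow_succ', mul_smul_comm]
  have h3 : Commute (S r) (∑ i ∈ range (r - 1), (((i + 2).factorial : ℝ)⁻¹) • S r ^ i) :=
    Commute.sum_right _ _ _ fun i _ => ((Commute.refl (S r)).pow_right i).smul_right _
  rw [h2, h3.mul_pow, S_pow_r, zero_mul]

/-- vectors without first coordinate are of the form `(al 1 - 1) u` -/
lemma exists_sub (hr : 1 ≤ r) (w : Fin r → ℝ) (hw : w ⟨0, hr⟩ = 0) :
    ∃ u, al r 1 u - u = w := by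
  obtain ⟨t, ht⟩ := T_unit hr
  let w' : Fin r → ℝ := fun k => if h : (k : ℕ) + 1 < r then w ⟨k + 1, h⟩ else 0
  refine ⟨((t⁻¹ : ((Fin r → ℝ) →L[ℝ] (Fin r → ℝ))ˣ) : (Fin r → ℝ) →L[ℝ] (Fin r → ℝ)) w', ?_⟩
  have h1 : ∀ v, al r 1 v - v = (al r 1 - 1) v := fun v => rfl
  rw [h1, al_sub_one, ← ht]
  change S r (((t : (Fin r → ℝ) →L[ℝ] (Fin r → ℝ)) * (t⁻¹ : ((Fin r → ℝ) →L[ℝ] (Fin r → ℝ))ˣ)) w')
    = w
  rw [Units.mul_inv]
  funext k
  change S r w' k = w k
  rw [S_apply]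
  by_cases hk : 0 < (k : ℕ)
  · rw [dif_pos hk]
    simp only [w']
    rw [dif_pos (by change (k : ℕ) - 1 + 1 < r; omega)]
    congr 1
    ext
    simp
    omega
  · rw [dif_neg hk, ← hw]
    congr 1
    ext
    simp
    omega

/-- iterated differences do not vanish -/
lemma exists_iter (hr : 1 ≤ r) : ∃ u : Fin r → ℝ, ((al r 1 - 1) ^ (r - 1)) u ≠ 0 := by
  obtain ⟨t, ht⟩ := T_unit hr
  let e : Fin r → ℝ := Pi.single ⟨0, hr⟩ 1
  refine ⟨(((t⁻¹) ^ (r - 1) : ((Fin r → ℝ) →L[ℝ] (Fin r → ℝ))ˣ) :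
    (Fin r → ℝ) →L[ℝ] (Fin r → ℝ)) e, fun h => ?_⟩
  rw [al_sub_one, T_commute.mul_pow, ← ht] at h
  change (S r ^ (r - 1)) (((t : (Fin r → ℝ) →L[ℝ] (Fin r → ℝ)) ^ (r - 1) *
    ((t⁻¹) ^ (r - 1) : ((Fin r → ℝ) →L[ℝ] (Fin r → ℝ))ˣ)) e) = 0 at h
  rw [← Units.val_pow_eq_pow_val, ← Units.val_mul, inv_pow, mul_inv_cancel, Units.val_one] at h
  have h2 := congrFun h ⟨r - 1, by omega⟩
  change (S r ^ (r - 1)) e ⟨r - 1, by omega⟩ = 0 at h2
  rw [S_pow, dif_pos (by simp)] at h2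
  have h3 : (⟨r - 1 - (r - 1), by omega⟩ : Fin r) = ⟨0, hr⟩ := by ext; simp
  simp only [h3, e, Pi.single_eq_same] at h2
  exact one_ne_zero h2

end Pool.Agent.H41.CJ.Fil
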