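import Pool.Agent.H41.CJ.C
import Pool.Agent.H41.CJ.J

set_option autoImplicit false

namespace Pool.Agent.H41.CJ

open Set
open scoped ContDiff commutatorElement

/-- The model filiform group of step `r`. -/
def Fil (r : ℕ) : Type := ℝ × (Fin r → ℝ)

namespace Fil
variable {r : ℕ}

noncomputable instance : NormedAddCommGroup (Fil r) :=
  inferInstanceAs (NormedAddCommGroup (ℝ × (Fin r → ℝ)))
noncomputable instance : NormedSpace ℝ (Fil r) :=
  inferInstanceAs (NormedSpace ℝ (ℝ × (Fin r → ℝ)))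
instance : FiniteDimensional ℝ (Fil r) :=
  inferInstanceAs (FiniteDimensional ℝ (ℝ × (Fin r → ℝ)))

/-- coordinates -/
def c (x : ℝ) (w : Fin r → ℝ) : Fil r := (x, w)

noncomputable instance : Mul (Fil r) := ⟨fun a b => c (a.1 + b.1) (a.2 + al r a.1 b.2)⟩
noncomputable instance : One (Fil r) := ⟨c 0 0⟩
noncomputable instance : Inv (Fil r) := ⟨fun a => c (-a.1) (-(al r (-a.1) a.2))⟩

lemma mul_def (a b : Fil r) : a * b = c (a.1 + b.1) (a.2 + al r a.1 b.2) := rfl
lemma one_def : (1 : Fil r) = c 0 0 := rfl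

noncomputable instance : Group (Fil r) := .ofLeftAxioms
  (fun a b d => by
    refine Prod.ext (add_assoc a.1 b.1 d.1) ?_
    change a.2 + al r a.1 b.2 + al r (a.1 + b.1) d.2 = a.2 + al r a.1 (b.2 + al r b.1 d.2)
    rw [al_add', map_add, add_assoc])
  (fun a => by
    refine Prod.ext (zero_add a.1) ?_
    change 0 + al r 0 a.2 = a.2
    rw [al_zero, zero_add]
    rfl)
  (fun a => by
    refine Prod.ext (neg_add_cancel a.1) ?_
    change -(al r (-a.1) a.2) + al r (-a.1) a.2 = 0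
    exact neg_add_cancel _)

lemma lf (v g : Fil r) : leftField v g = c v.1 (al r g.1 v.2) := by
  have h1 : HasFDerivAt (fun k : ℝ × (Fin r → ℝ) => ((g.1 + k.1, g.2 + al r g.1 k.2) :
      ℝ × (Fin r → ℝ))) ((ContinuousLinearMap.fst ℝ ℝ (Fin r → ℝ)).prod
        ((al r g.1).comp (ContinuousLinearMap.snd ℝ ℝ (Fin r → ℝ)))) (0, 0) :=
    (hasFDerivAt_fst.const_add g.1).prodMk
      (((al r g.1).comp (ContinuousLinearMap.snd ℝ ℝ (Fin r → ℝ))).hasFDerivAt.const_add g.2)
  exact DFunLike.congr_fun h1.fderiv v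

lemma al_deriv (hr : 2 ≤ r) (u : Fin r → ℝ) : HasDerivAt (fun x => al r x u) (S r u) 0 := by
  have h : (fun x => al r x u) = fun x => ∑ i ∈ Finset.range r,
      ((i.factorial : ℝ)⁻¹ * x ^ i) • (S r ^ i) u := by
    funext x
    unfold al
    rw [_root_.sum_apply]
    rfl
  rw [h]
  have h1 : HasDerivAt (fun x : ℝ => ∑ i ∈ Finset.range r,
      ((i.factorial : ℝ)⁻¹ * x ^ i) • (S r ^ i) u)
      (∑ i ∈ Finset.range r, ((i.factorial : ℝ)⁻¹ * (i * (0 : ℝ) ^ (i - 1))) • (S r ^ i) u) 0 := by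
    refine HasDerivAt.fun_sum fun i _ => ?_
    exact ((hasDerivAt_pow i (0 : ℝ)).const_mul _).smul_const _
  convert h1 using 1
  rw [Finset.sum_eq_single 1]
  · simp
  · intro i _ hi
    by_cases h0 : i = 0
    · simp [h0]
    · rw [zero_pow (by omega)]
      simp
  · intro h2
    exact absurd (Finset.mem_range.2 (by omega)) h2

lemma br (hr : 2 ≤ r) (v w : Fil r) : bracket v w = c 0 (v.1 • S r w.2 - w.1 • S r v.2) := by
  have h : ∀ w v : Fil r, fderiv ℝ (leftField w) (1 : Fil r) v = c 0 (v.1 • S r w.2) := by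
    intro w v
    rw [show (leftField w : Fil r → Fil r) = fun g : Fil r => c w.1 (al r g.1 w.2) from
      funext (lf w)]
    have p1 : HasFDerivAt (fun g : ℝ × (Fin r → ℝ) => g.1)
      (ContinuousLinearMap.fst ℝ ℝ (Fin r → ℝ)) ((0, 0) : ℝ × (Fin r → ℝ)) := hasFDerivAt_fst
    have h2 : HasFDerivAt (fun g : ℝ × (Fin r → ℝ) => al r g.1 w.2)
        ((ContinuousLinearMap.toSpanSingleton ℝ (S r w.2)).comp
          (ContinuousLinearMap.fst ℝ ℝ (Fin r → ℝ))) ((0, 0) : ℝ × (Fin r → ℝ)) :=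
      HasFDerivAt.comp (g := fun x : ℝ => al r x w.2) (f := fun g : ℝ × (Fin r → ℝ) => g.1)
        ((0, 0) : ℝ × (Fin r → ℝ)) (al_deriv hr w.2).hasFDerivAt p1
    have h1 : HasFDerivAt (fun g : ℝ × (Fin r → ℝ) => ((w.1, al r g.1 w.2) :
        ℝ × (Fin r → ℝ))) ((0 : ℝ × (Fin r → ℝ) →L[ℝ] ℝ).prod
          ((ContinuousLinearMap.toSpanSingleton ℝ (S r w.2)).comp
            (ContinuousLinearMap.fst ℝ ℝ (Fin r → ℝ)))) ((0, 0) : ℝ × (Fin r → ℝ)) :=
      (hasFDerivAt_const _ _).prodMk h2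
    exact DFunLike.congr_fun h1.fderiv v
  have h1 : bracket v w = fderiv ℝ (leftField w) (1 : Fil r) (leftField v 1) -
      fderiv ℝ (leftField v) (1 : Fil r) (leftField w 1) := rfl
  have e : ∀ v : Fil r, leftField v (1 : Fil r) = v := by
    intro v
    unfold leftField
    simp
  rw [h1, e, e, h, h]
  exact Prod.ext (sub_zero _) rfl

end Fil

end Pool.Agent.H41.CJ
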