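import Pool.Agent.H41.CJ.K

set_option autoImplicit false

namespace Pool.Agent.H41.CJ.Fil

open Set
open scoped ContDiff commutatorElement

variable {r : ℕ}

/-- The layers of the model filiform group. -/
def layer (r : ℕ) (j : ℕ) : Submodule ℝ (Fil r) where
  carrier := {a | (j ≠ 1 → a.1 = 0) ∧ ∀ k : Fin r, (k : ℕ) + 1 ≠ j → a.2 k = 0}
  add_mem' := fun {a b} ha hb => ⟨fun h => by
      change a.1 + b.1 = 0
      rw [ha.1 h, hb.1 h, add_zero], fun k hk => by
      change a.2 k + b.2 k = 0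
      rw [ha.2 k hk, hb.2 k hk, add_zero]⟩
  zero_mem' := ⟨fun _ => rfl, fun _ _ => rfl⟩
  smul_mem' := fun t a ha => ⟨fun h => by
      change t * a.1 = 0
      rw [ha.1 h, mul_zero], fun k hk => by
      change t * a.2 k = 0
      rw [ha.2 k hk, mul_zero]⟩

lemma mem_layer {j : ℕ} {a : Fil r} : a ∈ layer r j ↔
    (j ≠ 1 → a.1 = 0) ∧ ∀ k : Fin r, (k : ℕ) + 1 ≠ j → a.2 k = 0 := Iff.rfl

/-- The projection to the first layer. -/
noncomputable def proj (r : ℕ) : Fil r →L[ℝ] layer r 1 :=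
  LinearMap.toContinuousLinearMap (LinearMap.codRestrict (layer r 1)
    { toFun := fun a => c a.1 (fun k => if (k : ℕ) = 0 then a.2 k else 0)
      map_add' := fun a b => by
        refine Prod.ext rfl ?_
        funext k
        change (if (k : ℕ) = 0 then a.2 k + b.2 k else 0) =
          (if (k : ℕ) = 0 then a.2 k else 0) + (if (k : ℕ) = 0 then b.2 k else 0)
        split_ifs <;> simp
      map_smul' := fun t a => by
        refine Prod.ext rfl ?_
        funext k
        change (if (k : ℕ) = 0 then t * a.2 k else 0) = t * (if (k : ℕ) = 0 then a.2 k else 0)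
        split_ifs <;> simp }
    (fun a => ⟨fun h => absurd rfl h, fun k hk => by
      change (if (k : ℕ) = 0 then a.2 k else 0) = 0
      rw [if_neg (by omega)]⟩))

lemma proj_val (a : Fil r) : (proj r a : Fil r) =
    c a.1 (fun k => if (k : ℕ) = 0 then a.2 k else 0) := rfl

lemma proj_hom (a b : Fil r) : proj r (a * b) = proj r a + proj r b := by
  refine Subtype.ext ?_
  rw [Submodule.coe_add, proj_val, proj_val, proj_val]
  refine Prod.ext rfl ?_
  funext k
  change (if (k : ℕ) = 0 then (a.2 + al r a.1 b.2) k else 0) =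
    (if (k : ℕ) = 0 then a.2 k else 0) + (if (k : ℕ) = 0 then b.2 k else 0)
  split_ifs with hk
  · have hk' : k = ⟨0, k.pos⟩ := Fin.ext hk
    rw [Pi.add_apply, hk', al_apply_zero]
  · simp

lemma conj_one (u : Fin r → ℝ) : ⁅(c 1 0 : Fil r), (c 0 u : Fil r)⁆ = c 0 (al r 1 u - u) := by
  have h : (c 1 0 * c 0 u : Fil r) = c 0 (al r 1 u - u) * (c 0 u * c 1 0) := by
    refine Prod.ext ?_ ?_
    · change (1 : ℝ) + 0 = 0 + (0 + 1)
      norm_num
    · change 0 + al r 1 u = al r 1 u - u + al r 0 (u + al r 0 0)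
      rw [al_zero]
      change 0 + al r 1 u = al r 1 u - u + (u + 0)
      abel
  rw [commutatorElement_def, h]
  group

lemma lcs (n : ℕ) (u : Fin r → ℝ) : (c 0 (((al r 1 - 1) ^ n) u) : Fil r) ∈
    (⊤ : Subgroup (Fil r)).lowerCentralSeries n := by
  induction n with
  | zero => exact Subgroup.mem_top _
  | succ n ih =>
    have h1 : ⁅(c 0 (((al r 1 - 1) ^ n) u) : Fil r), c 1 0⁆ ∈
        (⊤ : Subgroup (Fil r)).lowerCentralSeries (n + 1) :=
      Subgroup.commutator_mem_commutator ih (Subgroup.mem_top _)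
    rw [← commutatorElement_inv, conj_one, inv_mem_iff] at h1
    rw [pow_succ']
    exact h1

/-- The subgroup of the vectors without the first `n` coordinates. -/
def low (n : ℕ) : Subgroup (Fil r) where
  carrier := {a | a.1 = 0 ∧ ∀ k : Fin r, (k : ℕ) < n → a.2 k = 0}
  mul_mem' := fun {a b} ha hb => ⟨by
      change a.1 + b.1 = 0
      rw [ha.1, hb.1, add_zero], fun k hk => by
      change (a.2 + al r a.1 b.2) k = 0
      rw [ha.1, al_zero]
      change a.2 k + b.2 k = 0
      rw [ha.2 k hk, hb.2 k hk, add_zero]⟩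
  one_mem' := ⟨rfl, fun _ _ => rfl⟩
  inv_mem' := fun {a} ha => ⟨by
      change -a.1 = 0
      rw [ha.1, neg_zero], fun k hk => by
      change (-(al r (-a.1) a.2)) k = 0
      rw [ha.1, neg_zero, al_zero]
      change -(a.2 k) = 0
      rw [ha.2 k hk, neg_zero]⟩

lemma comm_low (a b : Fil r) (ha : a.1 = 0) : ⁅a, b⁆ = c 0 (a.2 - al r b.1 a.2) := by
  have h : a * b = c 0 (a.2 - al r b.1 a.2) * (b * a) := by
    refine Prod.ext ?_ ?_
    · change a.1 + b.1 = 0 + (b.1 + a.1)
      ring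
    · change a.2 + al r a.1 b.2 = a.2 - al r b.1 a.2 + al r 0 (b.2 + al r b.1 a.2)
      rw [ha, al_zero]
      change a.2 + b.2 = a.2 - al r b.1 a.2 + (b.2 + al r b.1 a.2)
      abel
  rw [commutatorElement_def, h]
  group

lemma lcs_le (hr : 2 ≤ r) (n : ℕ) :
    (⊤ : Subgroup (Fil r)).lowerCentralSeries (n + 1) ≤ low (n + 1) := by
  induction n with
  | zero =>
    intro a ha
    rw [zero_add, Subgroup.top_lowerCentralSeries_one] at ha
    have h := congrArg Subtype.val (pi_comm (hπ := proj_hom) ha)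
    rw [proj_val] at h
    refine ⟨congrArg (fun b : ℝ × (Fin r → ℝ) => b.1) h, fun k hk => ?_⟩
    have h2 := congrFun (congrArg (fun b : ℝ × (Fin r → ℝ) => b.2) h) k
    change (if (k : ℕ) = 0 then a.2 k else 0) = 0 at h2
    rwa [if_pos (by omega)] at h2
  | succ n ih =>
    refine Subgroup.commutator_le.2 fun a ha b _ => ?_
    obtain ⟨h1, h2⟩ := ih ha
    rw [comm_low a b h1]
    refine ⟨rfl, fun k hk => ?_⟩
    change a.2 k - al r b.1 a.2 k = 0
    rw [al_apply, Finset.sum_eq_single 0]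
    · simp
    · intro i _ hi
      split_ifs with h3
      · rw [h2 _ (by change (k : ℕ) - i < n + 1; omega), mul_zero]
      · rw [mul_zero]
    · intro h
      exact absurd (Finset.mem_range.2 (by omega)) h

theorem isCarnot (hr : 2 ≤ r) : IsCarnot (layer r) (proj r) r where
  smooth_mul := by
    have h1 : ContDiff ℝ ∞ (fun p : (ℝ × (Fin r → ℝ)) × (ℝ × (Fin r → ℝ)) =>
        al r p.1.1 p.2.2) := al_contDiff.comp
      (f := fun p : (ℝ × (Fin r → ℝ)) × (ℝ × (Fin r → ℝ)) => (p.1.1, p.2.2)) (by fun_prop)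
    have h2 : ContDiff ℝ ∞ (fun p : (ℝ × (Fin r → ℝ)) × (ℝ × (Fin r → ℝ)) =>
        p.1.1 + p.2.1) := by fun_prop
    have h3 : ContDiff ℝ ∞ (fun p : (ℝ × (Fin r → ℝ)) × (ℝ × (Fin r → ℝ)) =>
        p.1.2 + al r p.1.1 p.2.2) := ContDiff.add (by fun_prop) h1
    exact h2.prodMk h3
  smooth_inv := by
    have h1 : ContDiff ℝ ∞ (fun p : ℝ × (Fin r → ℝ) => al r (-p.1) p.2) := al_contDiff.comp
      (f := fun p : ℝ × (Fin r → ℝ) => (-p.1, p.2)) (by fun_prop)
    have h2 : ContDiff ℝ ∞ (fun p : ℝ × (Fin r → ℝ) => -p.1) := by fun_prop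
    exact h2.prodMk h1.neg
  indep := by
    intro j
    let Z : Submodule ℝ (Fil r) :=
      { carrier := {a | (j = 1 → a.1 = 0) ∧ ∀ k : Fin r, (k : ℕ) + 1 = j → a.2 k = 0}
        add_mem' := fun {a b} ha hb => ⟨fun h => by
            change a.1 + b.1 = 0
            rw [ha.1 h, hb.1 h, add_zero], fun k hk => by
            change a.2 k + b.2 k = 0
            rw [ha.2 k hk, hb.2 k hk, add_zero]⟩
        zero_mem' := ⟨fun _ => rfl, fun _ _ => rfl⟩
        smul_mem' := fun t a ha => ⟨fun h => by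
            change t * a.1 = 0
            rw [ha.1 h, mul_zero], fun k hk => by
            change t * a.2 k = 0
            rw [ha.2 k hk, mul_zero]⟩ }
    have h1 : ⨆ (k) (_ : k ≠ j), layer r k ≤ Z := by
      refine iSup₂_le fun k hk a ha => ⟨fun h => ha.1 (by omega), fun i hi => ha.2 i (by omega)⟩
    refine Disjoint.mono_right h1 (Submodule.disjoint_def.2 fun a ha hb => ?_)
    refine Prod.ext ?_ ?_
    · by_cases h : j = 1
      · exact hb.1 h
      · exact ha.1 h
    · funext k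
      by_cases h : (k : ℕ) + 1 = j
      · exact hb.2 k h
      · exact ha.2 k h
  top := by
    rw [eq_top_iff]
    intro a _
    let ι : (Fin r → ℝ) →ₗ[ℝ] Fil r :=
      (LinearMap.inr ℝ ℝ (Fin r → ℝ) : (Fin r → ℝ) →ₗ[ℝ] ℝ × (Fin r → ℝ))
    have e : a = (c a.1 0 : Fil r) + ι (∑ k, Pi.single k (a.2 k)) := by
      rw [Finset.univ_sum_single]
      refine Prod.ext ?_ ?_
      · change a.1 = a.1 + 0
        rw [add_zero]
      · change a.2 = 0 + a.2
        rw [zero_add]
    rw [e, map_sum]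
    refine Submodule.add_mem _ (Submodule.mem_iSup_of_mem 1 ⟨fun h => absurd rfl h,
      fun _ _ => rfl⟩) (Submodule.sum_mem _ fun k _ => Submodule.mem_iSup_of_mem ((k : ℕ) + 1)
        ⟨fun _ => rfl, fun i hi => ?_⟩)
    change (Pi.single k (a.2 k) : Fin r → ℝ) i = 0
    rw [Pi.single_eq_of_ne (fun h => hi (by rw [h]))]
  zero := by
    rw [eq_bot_iff]
    intro a ha
    exact Prod.ext (ha.1 (by norm_num)) (funext fun k => ha.2 k (by omega))
  pos := by omega
  last := by
    rw [Submodule.ne_bot_iff]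
    refine ⟨c 0 (Pi.single ⟨r - 1, by omega⟩ 1), ⟨fun _ => rfl, fun k hk => ?_⟩, fun h => ?_⟩
    · change (Pi.single (⟨r - 1, by omega⟩ : Fin r) (1 : ℝ) : Fin r → ℝ) k = 0
      rw [Pi.single_eq_of_ne]
      intro h
      rw [h] at hk
      apply hk
      change r - 1 + 1 = r
      omega
    · have h2 := congrFun (congrArg (fun a : ℝ × (Fin r → ℝ) => a.2) h) ⟨r - 1, by omega⟩
      change (Pi.single (⟨r - 1, by omega⟩ : Fin r) (1 : ℝ) : Fin r → ℝ) ⟨r - 1, by omega⟩ = 0 at h2
      rw [Pi.single_eq_same] at h2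
      exact one_ne_zero h2
  above := by
    intro j hj
    rw [eq_bot_iff]
    intro a ha
    exact Prod.ext (ha.1 (by omega)) (funext fun k => ha.2 k (by omega))
  gen := by
    intro j hj
    refine le_antisymm (Submodule.span_le.2 ?_) fun a ha => ?_
    · rintro _ ⟨v, hv, w, hw, rfl⟩
      rw [br hr]
      refine ⟨fun _ => rfl, fun k hk => ?_⟩
      change v.1 * S r w.2 k - w.1 * S r v.2 k = 0
      rw [S_apply, S_apply]
      split_ifs with h0
      · rw [hw.2 _ (by change (k : ℕ) - 1 + 1 ≠ j; omega), mul_zero, zero_sub, neg_eq_zero,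
          mul_eq_zero]
        by_cases h1 : j = 1
        · exact Or.inr (hv.2 _ (by change (k : ℕ) - 1 + 1 ≠ 1; omega))
        · exact Or.inl (hw.1 h1)
      · simp
    · refine Submodule.subset_span ⟨c 1 0, ⟨fun h => absurd rfl h, fun _ _ => rfl⟩,
        c 0 (fun k => if h : (k : ℕ) + 1 = j ∧ j < r then a.2 ⟨j, h.2⟩ else 0),
        ⟨fun _ => rfl, fun k hk => dif_neg (fun h => hk h.1)⟩, ?_⟩
      rw [br hr]
      refine Prod.ext (ha.1 (by omega)) ?_
      funext k
      change a.2 k = 1 * S r (fun k : Fin r => if h : (k : ℕ) + 1 = j ∧ j < r then a.2 ⟨j, h.2⟩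
        else 0) k - 0 * S r 0 k
      rw [one_mul, zero_mul, sub_zero, S_apply]
      by_cases hkj : (k : ℕ) = j
      · rw [dif_pos (by omega), dif_pos ⟨by change (k : ℕ) - 1 + 1 = j; omega, by omega⟩]
        exact congrArg a.2 (Fin.ext hkj)
      · rw [ha.2 k (by omega)]
        split_ifs with h1 h2
        · exfalso
          have := h2.1
          change (k : ℕ) - 1 + 1 = j at this
          omega
        · rfl
        · rfl
  proj := by
    rintro ⟨a, ha⟩
    refine Subtype.ext ?_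
    rw [proj_val]
    refine Prod.ext rfl ?_
    funext k
    change (if (k : ℕ) = 0 then a.2 k else 0) = a.2 k
    split_ifs with hk
    · rfl
    · exact (ha.2 k (by omega)).symm
  proj_zero := by
    intro j hj a ha
    refine Subtype.ext ?_
    rw [proj_val]
    refine Prod.ext (ha.1 (by omega)) ?_
    funext k
    change (if (k : ℕ) = 0 then a.2 k else 0) = 0
    split_ifs with hk
    · exact ha.2 k (by omega)
    · rfl
  hom := proj_hom
  ker := by
    intro a
    refine ⟨fun h => ?_, pi_comm (hπ := proj_hom)⟩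
    have h1 := congrArg Subtype.val h
    rw [proj_val] at h1
    have e1 : a.1 = 0 := congrArg (fun b : ℝ × (Fin r → ℝ) => b.1) h1
    have e2 := congrFun (congrArg (fun b : ℝ × (Fin r → ℝ) => b.2) h1) ⟨0, by omega⟩
    change (if (0 : ℕ) = 0 then a.2 ⟨0, by omega⟩ else 0) = 0 at e2
    rw [if_pos rfl] at e2
    obtain ⟨u, hu⟩ := exists_sub (by omega : 1 ≤ r) a.2 e2
    have e3 : a = ⁅(c 1 0 : Fil r), (c 0 u : Fil r)⁆ := by
      rw [conj_one, hu]
      exact Prod.ext e1 rfl
    rw [e3, commutator_def]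
    exact Subgroup.commutator_mem_commutator (Subgroup.mem_top _) (Subgroup.mem_top _)
  lower := by
    intro h
    obtain ⟨u, hu⟩ := exists_iter (by omega : 1 ≤ r)
    have h1 := lcs (r - 1) u
    rw [h, Subgroup.mem_bot] at h1
    exact hu (congrArg (fun b : ℝ × (Fin r → ℝ) => b.2) h1)
  nilp := by
    rw [eq_bot_iff]
    intro a ha
    have h1 := lcs_le hr (r - 1) (by rwa [Nat.sub_add_cancel (by omega)])
    exact Prod.ext h1.1 (funext fun k => h1.2 k (by omega))

/-- The model filiform group has no abelian factor. -/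
theorem center (hr : 2 ≤ r) (a : Fil r) (ha : ∀ b, a * b = b * a) : proj r a = 0 := by
  have h1 := ha (c 0 (Pi.single ⟨0, by omega⟩ 1))
  have h2 := ha (c 1 0)
  have k1 := congrFun (congrArg (fun b : ℝ × (Fin r → ℝ) => b.2) h1) ⟨1, by omega⟩
  have k2 := congrFun (congrArg (fun b : ℝ × (Fin r → ℝ) => b.2) h2) ⟨1, by omega⟩
  change a.2 ⟨1, by omega⟩ + al r a.1 (Pi.single ⟨0, by omega⟩ 1) ⟨1, by omega⟩ =
    (Pi.single (⟨0, by omega⟩ : Fin r) (1 : ℝ) : Fin r → ℝ) ⟨1, by omega⟩ +
      al r 0 a.2 ⟨1, by omega⟩ at k1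
  change a.2 ⟨1, by omega⟩ + al r a.1 0 ⟨1, by omega⟩ =
    (0 : ℝ) + al r 1 a.2 ⟨1, by omega⟩ at k2
  rw [al_apply_one (by omega), al_apply_one (by omega)] at k1
  rw [map_zero, al_apply_one (by omega)] at k2
  rw [Pi.single_eq_same] at k1
  have e1 : a.1 = 0 := by linarith
  have e2 : a.2 ⟨0, by omega⟩ = 0 := by
    change a.2 ⟨1, by omega⟩ + (0 : ℝ) = _ at k2
    linarith
  refine Subtype.ext ?_
  rw [proj_val]
  refine Prod.ext e1 ?_
  funext k
  change (if (k : ℕ) = 0 then a.2 k else 0) = 0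
  split_ifs with hk
  · rw [← e2]
    exact congrArg a.2 (Fin.ext hk)
  · rfl

end Pool.Agent.H41.CJ.Fil
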