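import Pool.Agent.H41.CJ.I
import Pool.Agent.H41.CJ.L

set_option autoImplicit false

namespace Pool.Agent.H41.CJ

open Set MeasureTheory
open scoped ContDiff commutatorElement ENNReal NNReal Pointwise

/-- The Carnot distance given by the norm `ν` on the first layer `W`: infimum of the lengths of the
absolutely continuous curves which are tangent almost everywhere to the left-invariant distribution
given by `W`. -/
noncomputable def carnotDist {N : Type} [NormedAddCommGroup N] [NormedSpace ℝ N] [Group N]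
    (W : Submodule ℝ N) (ν : Seminorm ℝ W) (x y : N) : ℝ≥0∞ :=
  ⨅ (γ : ℝ → N) (u : ℝ → W) (_ : γ 0 = x) (_ : γ 1 = y)
    (_ : AbsolutelyContinuousOnInterval γ 0 1)
    (_ : ∀ᵐ s, s ∈ Icc (0 : ℝ) 1 → HasDerivAt γ (leftField (u s : N) (γ s)) s),
    ∫⁻ s in Icc (0 : ℝ) 1, ENNReal.ofReal (ν (u s))

lemma seminorm_bounds {X : Type} [NormedAddCommGroup X] [NormedSpace ℝ X] [FiniteDimensional ℝ X]
    (ν : Seminorm ℝ X) (hν : ∀ x, ν x = 0 → x = 0) :
    ∃ C : ℝ, 0 < C ∧ ∀ x, ν x ≤ C * ‖x‖ ∧ ‖x‖ ≤ C * ν x := by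
  have hcont : Continuous ν := ν.convexOn.locallyLipschitz.continuous
  obtain ⟨C1, h1⟩ := (isCompact_sphere (0 : X) 1).exists_bound_of_continuousOn hcont.continuousOn
  have hne : ∀ x ∈ Metric.sphere (0 : X) 1, ν x ≠ 0 := by
    intro x hx h0
    rw [hν x h0] at hx
    simp at hx
  obtain ⟨C2, h2⟩ := (isCompact_sphere (0 : X) 1).exists_bound_of_continuousOn
    (f := fun x => (ν x)⁻¹) (hcont.continuousOn.inv₀ hne)
  refine ⟨max 1 (max C1 C2), by positivity, fun x => ?_⟩
  by_cases hx : x = 0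
  · subst hx
    simp
  · have hn : 0 < ‖x‖ := norm_pos_iff.2 hx
    have hs : ‖x‖⁻¹ • x ∈ Metric.sphere (0 : X) 1 := by
      rw [mem_sphere_zero_iff_norm, norm_smul, norm_inv, norm_norm, inv_mul_cancel₀ hn.ne']
    have k1 := h1 _ hs
    have k2 := h2 _ hs
    have k3 := hne _ hs
    rw [Real.norm_of_nonneg (apply_nonneg _ _)] at k1
    rw [Real.norm_of_nonneg (inv_nonneg.2 (apply_nonneg _ _))] at k2
    have e : ν (‖x‖⁻¹ • x) = ‖x‖⁻¹ * ν x := by
      rw [map_smul_eq_mul, norm_inv, norm_norm]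
    have hpos : 0 < ν (‖x‖⁻¹ • x) := lt_of_le_of_ne (apply_nonneg _ _) k3.symm
    have hνx : 0 < ν x := by
      refine lt_of_le_of_ne (apply_nonneg _ _) fun h => hx (hν x h.symm)
    have m0 : (1 : ℝ) ≤ max 1 (max C1 C2) := le_max_left _ _
    have m1 : C1 ≤ max 1 (max C1 C2) := (le_max_left _ _).trans (le_max_right _ _)
    have m2 : C2 ≤ max 1 (max C1 C2) := (le_max_right _ _).trans (le_max_right _ _)
    constructor
    · rw [e, inv_mul_le_iff₀ hn] at k1
      nlinarith
    · rw [e, mul_inv, inv_inv] at k2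
      have k4 : ‖x‖ ≤ C2 * ν x := by
        rw [← div_eq_mul_inv, div_le_iff₀ hνx] at k2
        exact k2
      nlinarith

section cmp
variable {N : Type} [NormedAddCommGroup N] [NormedSpace ℝ N] [Group N] {W : Submodule ℝ N}
  {ν : Seminorm ℝ W} {C : ℝ}

lemma carnot_le (hC : 0 < C) (h : ∀ x, ν x ≤ C * ‖x‖) (x y : N) :
    carnotDist W ν x y ≤ ENNReal.ofReal C * ccDist W x y := by
  have t0 : ENNReal.ofReal C ≠ 0 := by
    rw [Ne, ENNReal.ofReal_eq_zero]
    linarith
  simp only [ccDist, carnotDist]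
  simp only [ENNReal.mul_iInf_of_ne t0 ENNReal.ofReal_ne_top, le_iInf_iff]
  intro γ u h1 h2 h3 h4
  refine iInf_le_of_le γ (iInf_le_of_le u (iInf_le_of_le h1 (iInf_le_of_le h2
    (iInf_le_of_le h3 (iInf_le_of_le h4 ?_)))))
  rw [← lintegral_const_mul' _ _ ENNReal.ofReal_ne_top]
  refine lintegral_mono fun s => ?_
  rw [← ofReal_norm, ← ENNReal.ofReal_mul hC.le]
  exact ENNReal.ofReal_le_ofReal (h _)

lemma le_carnot (hC : 0 < C) (h : ∀ x, ‖x‖ ≤ C * ν x) (x y : N) :
    ccDist W x y ≤ ENNReal.ofReal C * carnotDist W ν x y := by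
  have t0 : ENNReal.ofReal C ≠ 0 := by
    rw [Ne, ENNReal.ofReal_eq_zero]
    linarith
  simp only [ccDist, carnotDist]
  simp only [ENNReal.mul_iInf_of_ne t0 ENNReal.ofReal_ne_top, le_iInf_iff]
  intro γ u h1 h2 h3 h4
  refine iInf_le_of_le γ (iInf_le_of_le u (iInf_le_of_le h1 (iInf_le_of_le h2
    (iInf_le_of_le h3 (iInf_le_of_le h4 ?_)))))
  rw [← lintegral_const_mul' _ _ ENNReal.ofReal_ne_top]
  refine lintegral_mono fun s => ?_
  rw [← ofReal_norm, ← ENNReal.ofReal_mul hC.le]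
  exact ENNReal.ofReal_le_ofReal (h _)

end cmp

/-- `F` is biLipschitz for every Carnot distance with the first layer `W`. -/
def IsBiLip {N : Type} [NormedAddCommGroup N] [NormedSpace ℝ N] [Group N]
    (W : Submodule ℝ N) (F : N ≃ N) : Prop :=
  ∀ ν : Seminorm ℝ W, (∀ x, ν x = 0 → x = 0) → ∃ L : ℝ≥0, ∀ a b : N,
    carnotDist W ν (F a) (F b) ≤ L * carnotDist W ν a b ∧
    carnotDist W ν a b ≤ L * carnotDist W ν (F a) (F b)

lemma isBiLip {N : Type} [NormedAddCommGroup N] [NormedSpace ℝ N] [FiniteDimensional ℝ N] [Group N]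
    {W : Submodule ℝ N} {F : N ≃ N} (hF : IsBiLipschitz W F) : IsBiLip W F := by
  intro ν hν
  obtain ⟨C, hC, h⟩ := seminorm_bounds ν hν
  obtain ⟨L, hL⟩ := hF
  have key : ∀ a b a' b' : N, ccDist W a b ≤ L * ccDist W a' b' →
      carnotDist W ν a b ≤ (Real.toNNReal C * L * Real.toNNReal C : ℝ≥0) *
        carnotDist W ν a' b' := by
    intro a b a' b' hab
    calc carnotDist W ν a b ≤ ENNReal.ofReal C * ccDist W a b :=
          carnot_le hC (fun x => (h x).1) a b
      _ ≤ ENNReal.ofReal C * (L * ccDist W a' b') := by gcongr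
      _ ≤ ENNReal.ofReal C * (L * (ENNReal.ofReal C * carnotDist W ν a' b')) := by
          gcongr
          exact le_carnot hC (fun x => (h x).2) a' b'
      _ = _ := by
          rw [ENNReal.coe_mul, ENNReal.coe_mul]
          simp only [ENNReal.ofReal, mul_assoc]
  exact ⟨_, fun a b => ⟨key _ _ _ _ (hL a b).1, key _ _ _ _ (hL a b).2⟩⟩

/-- The Carnot group has no abelian factor: its centre lies in the commutator subgroup, the kernel
of the projection to the first layer. -/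
def NoAbelianFactor {N : Type} [NormedAddCommGroup N] [NormedSpace ℝ N] [Group N]
    {W : Submodule ℝ N} (π : N →L[ℝ] W) : Prop :=
  ∀ x : N, (∀ y, x * y = y * x) → π x = 0

end Pool.Agent.H41.CJ
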