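import Pool.Agent.H41.CJ.M

set_option autoImplicit false

namespace Pool.Agent.H41.CJ

open Set MeasureTheory
open scoped ContDiff commutatorElement ENNReal NNReal Pointwise

section
variable {E : Type} [NormedAddCommGroup E] [NormedSpace ℝ E] [Group E]

instance [FiniteDimensional ℝ E] {W : Submodule ℝ E} {π : E →L[ℝ] W}
    {hπ : ∀ x y : E, π (x * y) = π x + π y} : FiniteDimensional ℝ (Jet π hπ) :=
  inferInstanceAs (FiniteDimensional ℝ (E × ((W →L[ℝ] ℝ) × ℝ)))

lemma finrank_jet [FiniteDimensional ℝ E] {W : Submodule ℝ E} {π : E →L[ℝ] W}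
    {hπ : ∀ x y : E, π (x * y) = π x + π y} :
    Module.finrank ℝ (Jet π hπ) = Module.finrank ℝ E + Module.finrank ℝ W + 1 := by
  change Module.finrank ℝ (E × ((W →L[ℝ] ℝ) × ℝ)) = _
  have e : Module.finrank ℝ (W →L[ℝ] ℝ) = Module.finrank ℝ W := by
    rw [← (LinearMap.toContinuousLinearMap (𝕜 := ℝ) (E := W) (F' := ℝ)).finrank_eq]
    exact Subspace.dual_finrank_eq
  rw [Module.finrank_prod, Module.finrank_prod, e, Module.finrank_self]
  ring

end

lemma Fil.finrank_layer {r : ℕ} (hr : 2 ≤ r) : Module.finrank ℝ (Fil.layer r 1) = 2 := by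
  let φ : Fil.layer r 1 ≃ₗ[ℝ] ℝ × ℝ :=
    { toFun := fun a => ((a : Fil r).1, (a : Fil r).2 ⟨0, by omega⟩)
      map_add' := fun a b => rfl
      map_smul' := fun t a => rfl
      invFun := fun p => ⟨Fil.c p.1 (Pi.single ⟨0, by omega⟩ p.2), ⟨fun h => absurd rfl h,
        fun k hk => by
          change (Pi.single (⟨0, by omega⟩ : Fin r) p.2 : Fin r → ℝ) k = 0
          rw [Pi.single_eq_of_ne]
          intro h
          rw [h] at hk
          exact hk rfl⟩⟩
      left_inv := fun a => by
        refine Subtype.ext (Prod.ext rfl ?_)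
        funext k
        change (Pi.single (⟨0, by omega⟩ : Fin r) ((a : Fil r).2 ⟨0, by omega⟩) : Fin r → ℝ) k =
          (a : Fil r).2 k
        by_cases hk : (k : ℕ) = 0
        · have : k = ⟨0, by omega⟩ := Fin.ext hk
          rw [this, Pi.single_eq_same]
        · rw [Pi.single_eq_of_ne (fun h => hk (by rw [h])), a.2.2 k (by omega)]
      right_inv := fun p => by
        refine Prod.ext rfl ?_
        change (Pi.single (⟨0, by omega⟩ : Fin r) p.2 : Fin r → ℝ) ⟨0, by omega⟩ = p.2
        rw [Pi.single_eq_same] }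
  rw [φ.finrank_eq, Module.finrank_prod, Module.finrank_self]

lemma Fil.finrank {r : ℕ} : Module.finrank ℝ (Fil r) = r + 1 := by
  change Module.finrank ℝ (ℝ × (Fin r → ℝ)) = _
  rw [Module.finrank_prod, Module.finrank_self, Module.finrank_fin_fun, add_comm]

/-- `N` with the layers `U` and the abelianization `ρ` is a Carnot group of step `r` and dimension
`d` without abelian factor and without Heisenberg factor, and one bijection of `N`, biLipschitz for
every Carnot distance, does not permute the left cosets of `N_i` for each `i = 2, …, r`. -/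
def Violates {N : Type} [NormedAddCommGroup N] [NormedSpace ℝ N] [Group N]
    (U : ℕ → Submodule ℝ N) (ρ : N →L[ℝ] U 1) (r d : ℕ) : Prop :=
  IsCarnot U ρ r ∧ Module.finrank ℝ N = d ∧ NoAbelianFactor ρ ∧ NoHeisenbergFactor N ∧
    ∃ F : N ≃ N, IsBiLip (U 1) F ∧ ∀ i, 2 ≤ i → i ≤ r → ¬ PermutesCosets F i

/-- `E` is a retract of `N` with abelian kernel: there are continuous homomorphisms `p : N → E` and
`j : E → N` with `p ∘ j = id`, and the kernel of `p` is abelian. -/
def AbelianRetract (N E : Type) [TopologicalSpace N] [Group N] [TopologicalSpace E] [Group E] :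
    Prop :=
  ∃ (p : N →* E) (j : E →* N), Continuous p ∧ Continuous j ∧ (∀ x, p (j x) = x) ∧
    ∀ a b, p a = 1 → p b = 1 → a * b = b * a

lemma jet_retract {E : Type} [NormedAddCommGroup E] [NormedSpace ℝ E] [Group E]
    {W : Submodule ℝ E} {π : E →L[ℝ] W} {hπ : ∀ x y : E, π (x * y) = π x + π y} :
    AbelianRetract (Jet π hπ) E := by
  refine ⟨pr, MonoidHom.mk' (fun x => mk x 0 0) (fun x y => ?_), ?_, ?_, fun x => rfl, ?_⟩
  · refine Prod.ext rfl (Prod.ext ?_ ?_)
    · change (0 : W →L[ℝ] ℝ) = 0 + 0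
      simp
    · change (0 : ℝ) = 0 + 0 + (0 : W →L[ℝ] ℝ) (π y)
      simp
  · have : Continuous (fun a : E × ((W →L[ℝ] ℝ) × ℝ) => a.1) := continuous_fst
    exact this
  · have : Continuous (fun x : E => ((x, (0, 0)) : E × ((W →L[ℝ] ℝ) × ℝ))) :=
      continuous_id.prodMk continuous_const
    exact this
  · intro a b ha hb
    change a.1 = 1 at ha
    change b.1 = 1 at hb
    refine Prod.ext ?_ (Prod.ext ?_ ?_)
    · change a.1 * b.1 = b.1 * a.1
      rw [ha, hb]
    · change a.2.1 + b.2.1 = b.2.1 + a.2.1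
      exact add_comm _ _
    · change a.2.2 + b.2.2 + a.2.1 (π b.1) = b.2.2 + a.2.2 + b.2.1 (π a.1)
      rw [ha, hb, pi_one (hπ := hπ), map_zero, map_zero]
      ring

theorem main {E : Type} [NormedAddCommGroup E] [NormedSpace ℝ E] [FiniteDimensional ℝ E] [Group E]
    {V : ℕ → Submodule ℝ E} {π : E →L[ℝ] V 1} {r : ℕ} (h : IsCarnot V π r) (hr : 2 ≤ r) :
    Violates (jetLayer V h.hom) (jetProj V h.hom) r
      (Module.finrank ℝ E + Module.finrank ℝ (V 1) + 1) := by
  have h1 := jet_isCarnot h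
  rw [max_eq_left hr] at h1
  obtain ⟨F, hF, hp⟩ := jet_violates h hr
  exact ⟨h1, finrank_jet, fun x hx => jet_center h x hx, noHeis h hr, F, isBiLip hF, hp⟩

end Pool.Agent.H41.CJ
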